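import Pool.Agent.Q35.ZC.Stm4
import Pool.Agent.Q210.ZC.MAP
import Pool.Agent.Q65.ZC.FAC
import Pool.Agent.Q131.ZC.IND
import Pool.Agent.Q5.ZC.SEQ
import Pool.Agent.Q5.ZC.STEP
import Pool.Agent.Q231.ZC.TAN
import Pool.Agent.Q26.ZC.INJ
import Pool.Agent.Q254.ZC.INV
import Pool.Agent.Q68.ZC.NOD

/-!
# Project ZC: the lemmas of the helpers, assembled (helper35)
-/

set_option autoImplicit false

namespace Pool.Agent.Q35.ZC

theorem step2 : S_STEP :=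
  Pool.Agent.Q5.ZC.step Pool.Agent.Q131.ZC.ind
    (Pool.Agent.Q5.ZC.seq Pool.Agent.Q65.ZC.fac Pool.Agent.Q254.ZC.inv Pool.Agent.Q231.ZC.TAN.tan
      Pool.Agent.Q26.ZC.inj)

theorem map2 : S_MAP := Pool.Agent.Q210.ZC.map

theorem nod2 : S_NOD := Pool.Agent.Q68.ZC.nod

end Pool.Agent.Q35.ZC
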