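import Pool.Agent.Q35.ZC.All
import Pool.Agent.Q18.ZC.NDT
import Pool.Agent.Q247.ZC.TGT
import Pool.Agent.Q153.ZC.KEX
import Pool.Agent.Q221.ZC.SMB

/-!
# Project ZC: the lemmas of the helpers on tangent lines, assembled (helper35)
-/

set_option autoImplicit false

namespace Pool.Agent.Q35.ZC

theorem ndt2 : S_NDT := Pool.Agent.Q18.ZC.ndt

theorem tgt2 : S_TGT := Pool.Agent.Q247.ZC.tgt

theorem kex2 : S_KEX := Pool.Agent.Q153.ZC.kex

theorem smb2 : S_SMB := Pool.Agent.Q221.ZC.smb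

end Pool.Agent.Q35.ZC
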