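import Pool.Agent.Q35.ZC.Near

/-!
# Rational points `P` with `[P] = [ι P]` (project ZC, helper35)
-/

set_option autoImplicit false

open MvPolynomial Pool.Agent.Y720.MZ

namespace Pool.Agent.Q35.ZC

variable {K : Type} [Field K] {n : ℕ}

/-- The embedding in the algebraic closure. -/
noncomputable abbrev toC (K : Type) [Field K] : K →+* AlgebraicClosure K :=
  algebraMap K (AlgebraicClosure K)

/-- The rational points `Q` such that `Q` and `ι Q` are rationally equivalent over the algebraic
closure. -/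
def BV (f : MvPolynomial (Fin n) K) : Set ((Fin n → K) × K) :=
  {Q | OnCover f Q ∧ dl (image (toC K) Q).1 (image (toC K) Q).2 ∈ Rat (map (toC K) f)}

/-- The image of a zero-cycle. -/
noncomputable def push {F : Type} [Field F] (φ : K →+* F) :
    (((Fin n → K) × K) →₀ ℤ) →+ (((Fin n → F) × F) →₀ ℤ) :=
  Finsupp.mapDomain.addMonoidHom (fun P => ((fun k => φ (P.1 k)), φ P.2))

lemma push_pt {F : Type} [Field F] (φ : K →+* F) (x : Fin n → K) (w : K) :
    push φ (pt x w) = pt (fun k => φ (x k)) (φ w) := by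
  simp [push, pt]

lemma push_dl {F : Type} [Field F] (φ : K →+* F) (x : Fin n → K) (w : K) :
    push φ (dl x w) = dl (fun k => φ (x k)) (φ w) := by
  rw [dl, map_sub, push_pt, push_pt, map_neg]
  rfl

lemma push_mem (hM : S_MAP) {F : Type} [Field F] (φ : K →+* F) {f : MvPolynomial (Fin n) K}
    {z : ((Fin n → K) × K) →₀ ℤ} (hz : z ∈ Rat f) : push φ z ∈ Rat (map φ f) :=
  hM K F φ n f z hz

/-- The moves stay in `BV`. -/
lemma odds_bv (hM : S_MAP) {f : MvPolynomial (Fin n) K} {P : (Fin n → K) × K} (hP : P ∈ BV f) :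
    Odds f P ⊆ BV f := by
  rintro Q ⟨hQ, m, hm⟩
  refine ⟨hQ, ?_⟩
  have h1 := push_mem hM (toC K) hm
  rw [map_sub, map_zsmul, push_dl, push_dl] at h1
  have h2 := AddSubgroup.zsmul_mem _ hP.2 (2 * m + 1)
  have h3 := add_mem h1 h2
  have e : dl (fun k => toC K (Q.1 k)) (toC K Q.2) -
      (2 * m + 1) • dl (fun k => toC K (P.1 k)) (toC K P.2) +
      (2 * m + 1) • dl (image (toC K) P).1 (image (toC K) P).2 =
      dl (image (toC K) Q).1 (image (toC K) Q).2 := by
    simp only [image]
    abel
  rw [e] at h3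
  exact h3

/-- Two points of `BV` are rationally equivalent up to two-torsion. -/
lemma bv_pair {f : MvPolynomial (Fin n) K} {Q Q' : (Fin n → K) × K} (hQ : Q ∈ BV f)
    (hQ' : Q' ∈ BV f) :
    2 • (pt (image (toC K) Q).1 (image (toC K) Q).2 -
      pt (image (toC K) Q').1 (image (toC K) Q').2) ∈ Rat (map (toC K) f) := by
  have on : ∀ {Q : (Fin n → K) × K}, OnCover f Q →
      (image (toC K) Q).2 ^ 2 = eval (image (toC K) Q).1 (map (toC K) f) := by
    intro Q h
    have k1 : eval (image (toC K) Q).1 (map (toC K) f) = toC K (eval Q.1 f) := by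
      rw [eval_map, image]
      exact (eval₂_comp_left (toC K) (RingHom.id K) Q.1 f).symm ▸ rfl
    rw [k1, ← h, map_pow]
    rfl
  have h1 : pt (image (toC K) Q).1 (image (toC K) Q).2 +
      pt (image (toC K) Q).1 (-(image (toC K) Q).2) -
      pt (image (toC K) Q').1 (image (toC K) Q').2 -
      pt (image (toC K) Q').1 (-(image (toC K) Q').2) ∈ Rat (map (toC K) f) :=
    AddSubgroup.subset_closure (Or.inr ⟨_, _, _, _, on hQ.1, on hQ'.1, rfl⟩)
  have h2 := add_mem h1 (sub_mem hQ.2 hQ'.2)
  have e : pt (image (toC K) Q).1 (image (toC K) Q).2 +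
      pt (image (toC K) Q).1 (-(image (toC K) Q).2) -
      pt (image (toC K) Q').1 (image (toC K) Q').2 -
      pt (image (toC K) Q').1 (-(image (toC K) Q').2) +
      (dl (image (toC K) Q).1 (image (toC K) Q).2 - dl (image (toC K) Q').1 (image (toC K) Q').2) =
      2 • (pt (image (toC K) Q).1 (image (toC K) Q).2 -
      pt (image (toC K) Q').1 (image (toC K) Q').2) := by
    simp only [dl]
    abel
  rw [e] at h2
  exact h2

/-- The points over a hyperplane on which `f` is the square of a polynomial with a zero belong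
to `BV`. -/
lemma split_bv [CharZero K] (hS : S_SPL) {f g : MvPolynomial (Fin n) K} {j : Fin n} {c : K}
    (hg : ∀ y : Fin n → K, y j = c → eval y f = eval y g ^ 2)
    (h0 : ∃ y : Fin n → AlgebraicClosure K, y j = toC K c ∧ aeval y g = 0)
    {P : (Fin n → K) × K} (hP : OnCover f P) (hj : P.1 j = c) : P ∈ BV f := by
  classical
  refine ⟨hP, ?_⟩
  have hp : ∀ (y : Fin n → AlgebraicClosure K), y j = toC K c →
      eval y (map (toC K) f) = eval y (map (toC K) g) ^ 2 := by
    -- substitute `x_j = c`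
    have h1 : ∀ p : MvPolynomial (Fin n) K, ∀ y : Fin n → AlgebraicClosure K, y j = toC K c →
        eval y (map (toC K) (bind₁ (Function.update X j (C c)) p)) = eval y (map (toC K) p) := by
      intro p y hy
      rw [map_bind₁, ← aeval_eq_eval, aeval_bind₁]
      congr 2
      funext k
      by_cases hk : k = j
      · subst hk; simp [hy]
      · simp [Function.update_of_ne hk]
    have h2 : bind₁ (Function.update X j (C c)) f = bind₁ (Function.update X j (C c)) g ^ 2 := by
      have : Infinite K := CharZero.infinite K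
      refine MvPolynomial.funext fun x => ?_
      have h3 : ∀ p : MvPolynomial (Fin n) K, eval x (bind₁ (Function.update X j (C c)) p) =
          eval (Function.update x j c) p := by
        intro p
        rw [← aeval_eq_eval, ← aeval_eq_eval, aeval_bind₁]
        congr 2
        funext k
        by_cases hk : k = j
        · subst hk; simp
        · simp [Function.update_of_ne hk]
      rw [map_pow, h3, h3]
      exact hg _ (by simp)
    intro y hy
    rw [← h1 f y hy, ← h1 g y hy, h2, map_pow, map_pow]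
  refine hS (AlgebraicClosure K) n (map (toC K) f) (map (toC K) g) j (toC K c) hp ?_ _ _ ?_ ?_
  · obtain ⟨y, hy, h⟩ := h0
    refine ⟨y, hy, ?_⟩
    rw [eval_map]
    exact h
  · change toC K (P.1 j) = toC K c
    rw [hj]
  · have k1 : eval (image (toC K) P).1 (map (toC K) f) = toC K (eval P.1 f) := by
      rw [eval_map, image]
      exact (eval₂_comp_left (toC K) (RingHom.id K) P.1 f).symm ▸ rfl
    rw [k1, ← hP, map_pow]
    rfl

/-- Monotonicity. -/
lemma dense_mono {ι : Type} {p : ι → ℕ} [∀ v, Fact (p v).Prime] {f : MvPolynomial (Fin n) K}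
    {R R' : Set ((Fin n → K) × K)} (h : R ⊆ R') {P : (Fin n → K) × K} {σ : ∀ v, K →+* ℚ_[p v]}
    (hd : Dense f R P σ) : Dense f R' P σ := by
  obtain ⟨U, hU, hd⟩ := hd
  refine ⟨U, hU, fun S hS hS' => closure_mono ?_ (hd S hS hS')⟩
  rintro _ ⟨Q, hQ, rfl⟩
  exact ⟨Q, h hQ, rfl⟩

lemma denseReal_mono {ι : Type} {p : ι → ℕ} [∀ v, Fact (p v).Prime] {f : MvPolynomial (Fin n) K}
    {R R' : Set ((Fin n → K) × K)} (h : R ⊆ R') {P : (Fin n → K) × K} {σ : ∀ v, K →+* ℚ_[p v]}
    {τ : K →+* ℝ} (hd : DenseReal f R P σ τ) : DenseReal f R' P σ τ := by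
  obtain ⟨U, hU, hd⟩ := hd
  refine ⟨U, hU, fun S hS hS' hS'' => closure_mono ?_ (hd S hS hS' hS'')⟩
  rintro _ ⟨Q, hQ, rfl⟩
  exact ⟨Q, h hQ, rfl⟩

end Pool.Agent.Q35.ZC
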