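import Pool.Agent.Q35.ZC.Stm3
import Pool.Agent.Q35.TT.Stm4

/-!
# Tangent lines of the branch curve over finite extensions: statements (project ZC, helper35)
-/

set_option autoImplicit false

open MvPolynomial Pool.Agent.Q35.TT Pool.Agent.Y720.MZ

namespace Pool.Agent.Q35.ZC

/-- TGT: the branch curve has a tangent line in the direction of the first coordinate, in some
chart. -/
def S_TGT : Prop :=
  ∀ (K : Type) [Field K] [CharZero K] (F : MvPolynomial (Fin 2 × Fin 2) K), Hom4 F → SmoothF F →
    ∃ (ε : Fin 2 → Fin 2) (y : Fin 2 → AlgebraicClosure K), aeval y (ch F ε) = 0 ∧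
      aeval y (pderiv 0 (ch F ε)) = 0

/-- KEX: over a finite extension the points over a tangent line are infinite in number. -/
def S_KEX : Prop :=
  ∀ (K : Type) [Field K] [NumberField K] (f : MvPolynomial (Fin 2) K), (∀ j, f.degreeOf j ≤ 4) →
    ∀ y : Fin 2 → AlgebraicClosure K, aeval y f = 0 → aeval y (pderiv 0 f) = 0 →
      (∃ t : AlgebraicClosure K, aeval (Function.update y 0 t) f ≠ 0) →
      ∃ (K' : Type) (_ : Field K') (_ : NumberField K') (φ : K →+* K') (c : K'),
        (∃ y' : Fin 2 → AlgebraicClosure K', y' 1 = algebraMap K' (AlgebraicClosure K') c ∧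
          aeval y' (map φ f) = 0 ∧ aeval y' (pderiv 0 (map φ f)) = 0) ∧
        ∀ S : Set K', S.Finite → ∃ (z : Fin 2 → K') (w : K'), z 1 = c ∧ z 0 ∉ S ∧ w ≠ 0 ∧
          w ^ 2 = eval z (map φ f)

/-- SMB: smoothness after an extension of number fields. -/
def S_SMB : Prop :=
  ∀ (K K' : Type) [Field K] [NumberField K] [Field K'] [NumberField K'] (φ : K →+* K') (n : ℕ)
    (f : MvPolynomial (Fin n) K), SmoothN f → SmoothN (map φ f)

end Pool.Agent.Q35.ZC
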