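import Pool.Agent.Q35.ZC.K3
import Pool.Agent.Q35.ZC.Stm4

/-!
# Rational points `P` with `[P] = [ι P]` up to torsion (project ZC, helper35)
-/

set_option autoImplicit false

open MvPolynomial Pool.Agent.Y720.MZ

namespace Pool.Agent.Q35.ZC

open Pool.Agent.Q35.TT (SmoothN TorN Tor TorT lc af bq tay ND S_TWS S_SPE S_TBN)
open Pool.Agent.Q121.TT (cf)

section

variable {K : Type} [Field K] {n : ℕ}

/-- The rational points `Q` such that a multiple of `[Q] - [ι Q]` is rationally equivalent to zero over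
the algebraic closure. -/
def CT (f : MvPolynomial (Fin n) K) : Set ((Fin n → K) × K) :=
  {Q | OnCover f Q ∧ ∃ N : ℕ, N ≠ 0 ∧
    N • dl (image (toC K) Q).1 (image (toC K) Q).2 ∈ Rat (map (toC K) f)}

lemma eval_image {F : Type} [Field F] (φ : K →+* F) (f : MvPolynomial (Fin n) K)
    (Q : (Fin n → K) × K) : eval (image φ Q).1 (map φ f) = φ (eval Q.1 f) := by
  rw [eval_map, image]
  exact (eval₂_comp_left φ (RingHom.id K) Q.1 f).symm ▸ rfl

/-- The moves stay in `CT`. -/
lemma odds_ct (hM : S_MAP) {f : MvPolynomial (Fin n) K} {P : (Fin n → K) × K} (hP : P ∈ CT f) :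
    Odds f P ⊆ CT f := by
  rintro Q ⟨hQ, m, hm⟩
  obtain ⟨hP, N, hN, h⟩ := hP
  refine ⟨hQ, N, hN, ?_⟩
  have h1 := push_mem hM (toC K) hm
  rw [map_sub, map_zsmul, push_dl, push_dl] at h1
  have h2 := AddSubgroup.zsmul_mem _ h (2 * m + 1)
  have h3 := add_mem (AddSubgroup.nsmul_mem _ h1 N) h2
  have e : N • (dl (fun k => toC K (Q.1 k)) (toC K Q.2) -
      (2 * m + 1) • dl (fun k => toC K (P.1 k)) (toC K P.2)) +
      (2 * m + 1) • (N • dl (image (toC K) P).1 (image (toC K) P).2) =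
      N • dl (image (toC K) Q).1 (image (toC K) Q).2 := by
    simp only [image]
    rw [smul_sub, smul_comm N (2 * m + 1 : ℤ)]
    abel
  rw [e] at h3
  exact h3

/-- Two points of `CT` are rationally equivalent up to torsion. -/
lemma ct_pair {f : MvPolynomial (Fin n) K} {Q Q' : (Fin n → K) × K} (hQ : Q ∈ CT f)
    (hQ' : Q' ∈ CT f) :
    ∃ N : ℕ, N ≠ 0 ∧ N • (pt (image (toC K) Q).1 (image (toC K) Q).2 -
      pt (image (toC K) Q').1 (image (toC K) Q').2) ∈ Rat (map (toC K) f) := by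
  obtain ⟨on1, N1, hN1, h1⟩ := hQ
  obtain ⟨on2, N2, hN2, h2⟩ := hQ'
  have on : ∀ {Q : (Fin n → K) × K}, OnCover f Q →
      (image (toC K) Q).2 ^ 2 = eval (image (toC K) Q).1 (map (toC K) f) := by
    intro Q h
    rw [eval_image, ← h, map_pow]
    rfl
  have h3 : pt (image (toC K) Q).1 (image (toC K) Q).2 +
      pt (image (toC K) Q).1 (-(image (toC K) Q).2) -
      pt (image (toC K) Q').1 (image (toC K) Q').2 -
      pt (image (toC K) Q').1 (-(image (toC K) Q').2) ∈ Rat (map (toC K) f) :=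
    AddSubgroup.subset_closure (Or.inr ⟨_, _, _, _, on on1, on on2, rfl⟩)
  refine ⟨N1 * N2 * 2, mul_ne_zero (mul_ne_zero hN1 hN2) two_ne_zero, ?_⟩
  have h4 := add_mem (AddSubgroup.nsmul_mem _ h3 (N1 * N2))
    (sub_mem (AddSubgroup.nsmul_mem _ h1 N2) (AddSubgroup.nsmul_mem _ h2 N1))
  have e : (N1 * N2) • (pt (image (toC K) Q).1 (image (toC K) Q).2 +
      pt (image (toC K) Q).1 (-(image (toC K) Q).2) -
      pt (image (toC K) Q').1 (image (toC K) Q').2 -
      pt (image (toC K) Q').1 (-(image (toC K) Q').2)) +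
      (N2 • (N1 • dl (image (toC K) Q).1 (image (toC K) Q).2) -
        N1 • (N2 • dl (image (toC K) Q').1 (image (toC K) Q').2)) =
      (N1 * N2 * 2) • (pt (image (toC K) Q).1 (image (toC K) Q).2 -
      pt (image (toC K) Q').1 (image (toC K) Q').2) := by
    simp only [dl, ← mul_smul, mul_comm N2 N1]
    module
  rw [e] at h4
  exact h4

/-- The points over a tangent line belong to `CT`. -/
lemma tangent_ct [CharZero K] (hO : S_NOD) {f : MvPolynomial (Fin n) K} {i : Fin n}
    (hf : f.degreeOf i ≤ 4) {P : (Fin n → K) × K} (hP : OnCover f P)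
    (h : ∃ y : Fin n → AlgebraicClosure K, (∀ k, k ≠ i → y k = toC K (P.1 k)) ∧ aeval y f = 0 ∧
      aeval y (pderiv i f) = 0) : P ∈ CT f := by
  classical
  refine ⟨hP, 2, two_ne_zero, ?_⟩
  obtain ⟨y, hy, h0, h1⟩ := h
  have hline : (image (toC K) P).1 + (y i - toC K (P.1 i)) • (Pi.single i 1 : Fin n → _) = y := by
    funext k
    by_cases hk : k = i
    · subst hk
      simp [image]
    · simp [image, hk, hy k hk]
  refine hO (AlgebraicClosure K) n (map (toC K) f) (image (toC K) P).1 i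
    (degreeOf_map_le (toC K) hf) ⟨y i - toC K (P.1 i), ?_, ?_⟩ _ ?_
  · rw [rst_eval, hline, eval_map]
    exact h0
  · rw [rst_deriv, dd_single, rst_eval, hline, pderiv_map, eval_map]
    exact h1
  · rw [eval_image, ← hP, map_pow]
    rfl

end

lemma pq_ne {K : Type} [Field K] {a : Fin 5 → K} (ha : a ≠ 0) : Pool.Agent.Q35.TT.pq a ≠ 0 := by
  intro h0
  apply ha
  funext k
  have h1 := congrArg (fun p => Polynomial.coeff p (k : ℕ)) h0
  simp only [Pool.Agent.Q35.TT.pq, Polynomial.finset_sum_coeff, Polynomial.coeff_C_mul,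
    Polynomial.coeff_X_pow, Polynomial.coeff_zero] at h1
  rw [Finset.sum_eq_single k] at h1
  · simpa using h1
  · intro b _ hb
    rw [if_neg, mul_zero]
    intro h
    exact hb (Fin.ext h.symm)
  · intro h
    exact absurd (Finset.mem_univ _) h

/-- A line is not contained in the branch curve. -/
lemma no_line (h3 : S_SPE) (h8 : S_SMB) {K : Type} [Field K] [NumberField K]
    {f : MvPolynomial (Fin 2) K} (hd : ∀ j, f.degreeOf j ≤ 4) (hs : SmoothN f)
    (y : Fin 2 → AlgebraicClosure K) :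
    ∃ t : AlgebraicClosure K, aeval (Function.update y 0 t) f ≠ 0 := by
  classical
  let K' := IntermediateField.adjoin K {y 1}
  have hint : IsIntegral K (y 1) := Algebra.IsIntegral.isIntegral _
  have : FiniteDimensional K K' := IntermediateField.adjoin.finiteDimensional hint
  have : NumberField K' := NumberField.of_module_finite K K'
  let c : K' := ⟨y 1, IntermediateField.mem_adjoin_simple_self K (y 1)⟩
  have hd' : ∀ j, (map (algebraMap K K') f).degreeOf j ≤ 4 := fun j =>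
    degreeOf_map_le (algebraMap K K') (hd j)
  have hs' := h8 K K' (algebraMap K K') 2 f hs
  have h1 := (h3 K' _ (Pool.Agent.Q121.TT.smooth_swap (Pool.Agent.Q121.TT.smooth hd' hs'))).1 c
  have h2 := pq_ne h1
  obtain ⟨t, ht⟩ : ∃ t : K', (Pool.Agent.Q35.TT.pq (Pool.Agent.Q35.TT.cy (fun i j =>
      cf (map (algebraMap K K') f) j i) ![1, c])).eval t ≠ 0 := by
    by_contra hcon
    push Not at hcon
    exact h2 (Polynomial.funext fun t => by rw [hcon t, Polynomial.eval_zero])
  rw [Pool.Agent.Q121.TT.pq_eval] at ht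
  have h4 := Pool.Agent.Q121.TT.eval_f' (map (algebraMap K K') f) hd' ![t, c]
  have h5 : eval ![t, c] (map (algebraMap K K') f) ≠ 0 := by
    rw [h4]
    simpa using ht
  refine ⟨(t : AlgebraicClosure K), ?_⟩
  intro h0
  apply h5
  have h6 : algebraMap K' (AlgebraicClosure K) (eval ![t, c] (map (algebraMap K K') f)) =
      aeval (Function.update y 0 (t : AlgebraicClosure K)) f := by
    rw [eval_map, ← aeval_def, ← aeval_algebraMap_apply]
    congr 1
    congr 1
    funext k
    fin_cases k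
    · simp
    · simp [Function.update_of_ne]
      rfl
  apply (algebraMap K' (AlgebraicClosure K)).injective
  rw [h6, h0, map_zero]

/-- **Tangent lines of the branch curve.** -/
theorem k3_tangent (hS : S_STEP) (h2 : S_TWS) (h3 : S_SPE) (h4 : S_TBN) (h5 : S_NDT) {K : Type}
    [Field K] [NumberField K] {f : MvPolynomial (Fin 2) K} (hf : ∀ j, f.degreeOf j ≤ 4)
    (hs : SmoothN f) {e : K} (he : e ≠ 0) {i j : Fin 2} (hij : i ≠ j) {c : K}
    (ht : ∃ y : Fin 2 → AlgebraicClosure K, y j = toC K c ∧ aeval y f = 0 ∧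
      aeval y (pderiv i f) = 0) :
    ∃ S : Set K, S.Finite ∧ ∀ (z : Fin 2 → K) (w : K), z j = c → z i ∉ S →
      w ^ 2 = eval z (C e * f) →
        w ≠ 0 ∧ Near (C e * f) (Odds (C e * f) (z, w)) (z, w) := by
  classical
  set z₀ : Fin 2 → K := fun _ => c with hz₀
  have hij' : ∀ k : Fin 2, k ≠ i → k = j := by
    intro k hk
    have := hij
    omega
  have hup : ∀ z : Fin 2 → K, z j = c → z = Function.update z₀ i (z i) := by
    intro z hz
    funext k
    by_cases hk : k = i
    · subst hk; simp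
    · rw [Function.update_of_ne hk, hij' k hk, hz]
  obtain ⟨hND, hne⟩ := h5 K f hf hs i j hij z₀ ht
  have hfin1 : {t : K | TorN f (Function.update z₀ i t) j}.Finite := h4 K 2 f hf z₀ i j hij hND
  have hfin2 : {c : K | ∃ x : Fin 2 → K, x i = c ∧
      ¬ (GenusOne (line f x j) ∧ NotSpecial f x j i)}.Finite :=
    finite_special h3 hf hs j i (Ne.symm hij)
  have hlc : ∀ t : K, lc f (af (Function.update z₀ i t)) i = lc f (af z₀) i := fun t =>
    Pool.Agent.Q222.TT.Opn.lc_line hf _ _ i fun k hk => by rw [Function.update_of_ne hk]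
  have hpq : Pool.Agent.Q35.TT.pq (lc f (af z₀) i) ≠ 0 := pq_ne hne
  have hfin3 : {t : K | (Pool.Agent.Q35.TT.pq (lc f (af z₀) i)).eval t = 0}.Finite :=
    Polynomial.finite_setOf_isRoot hpq
  refine ⟨_, (hfin1.union hfin2).union hfin3, fun z w hz hS' hon => ?_⟩
  rw [Set.mem_union, Set.mem_union, not_or, not_or] at hS'
  obtain ⟨⟨k1, k2⟩, k3⟩ := hS'
  have hev : eval z (C e * f) = e * (Pool.Agent.Q35.TT.pq (lc f (af z₀) i)).eval (z i) := by
    rw [map_mul, eval_C, Pool.Agent.Q121.TT.pq_eval,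
      Pool.Agent.Q222.TT.Opn.eval_lc hf z i]
    congr 2
    rw [hup z hz, hlc]
  have hw : w ≠ 0 := by
    rintro rfl
    apply k3
    rw [Set.mem_ofPred_eq]
    rw [hev, zero_pow two_ne_zero] at hon
    exact (mul_eq_zero.1 hon.symm).resolve_left he
  refine ⟨hw, ?_⟩
  have hGN : GenusOne (line f z j) ∧ NotSpecial f z j i := by
    by_contra hcon
    exact k2 ⟨z, rfl, hcon⟩
  refine near_two hS h2 hf he hw hon (i := j) ?_ hGN.1 fun k hk => ?_
  · rw [hup z hz]
    exact k1
  · have : k = i := by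
      by_contra hki
      exact hk (hij' k hki)
    rw [this]
    exact hGN.2

/-- **Over finite extensions.** -/
theorem k3_ext (hS : S_STEP) (hM : S_MAP) (hO : S_NOD) (h2 : S_TWS) (h3 : S_SPE) (h4 : S_TBN)
    (h5 : S_NDT) (h6 : S_TGT) (h7 : S_KEX) (h8 : S_SMB) (h9 : Pool.Agent.Q35.TT.S_CHF) {K : Type}
    [Field K] [NumberField K] {F : MvPolynomial (Fin 2 × Fin 2) K}
    (hF : Pool.Agent.Q35.TT.Hom4 F) (hs : Pool.Agent.Q35.TT.SmoothF F) :
    ∃ (ε : Fin 2 → Fin 2) (K' : Type) (_ : Field K') (_ : NumberField K') (φ : K →+* K')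
      (P : (Fin 2 → K') × K'), P.2 ≠ 0 ∧ P ∈ CT (map φ (Pool.Agent.Q35.TT.ch F ε)) ∧
      Near (map φ (Pool.Agent.Q35.TT.ch F ε)) (CT (map φ (Pool.Agent.Q35.TT.ch F ε))) P := by
  obtain ⟨ε, y, hy0, hy1⟩ := h6 K F hF hs
  obtain ⟨hd, hsm, -⟩ := h9 K 2 F hF ε
  have hsN := hsm hs
  set f := Pool.Agent.Q35.TT.ch F ε with hf
  -- the line is not contained in the branch curve
  have hnl := no_line h3 h8 hd hsN y
  obtain ⟨K', i1, i2, φ, c, ⟨y', hy', hy0', hy1'⟩, hz⟩ := h7 K f hd y hy0 hy1 hnl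
  have hd' : ∀ j, (map φ f).degreeOf j ≤ 4 := fun j => degreeOf_map_le φ (hd j)
  have hs' : SmoothN (map φ f) := h8 K K' φ 2 f hsN
  obtain ⟨S, hSf, hS'⟩ := k3_tangent hS h2 h3 h4 h5 hd' hs' (e := 1) one_ne_zero (i := 0) (j := 1)
    (by decide) (c := c) ⟨y', hy', hy0', hy1'⟩
  rw [map_one, one_mul] at hS'
  obtain ⟨z, w, hz1, hz0, hw, hon⟩ := hz S hSf
  have hP : (z, w) ∈ CT (map φ f) := tangent_ct hO (i := 0) (hd' 0) hon
    ⟨y', fun k hk => by
      have : k = 1 := by omega
      subst this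
      change y' 1 = toC K' (z 1)
      rw [hz1]
      exact hy', hy0', hy1'⟩
  exact ⟨ε, K', i1, i2, φ, (z, w), hw, hP, Near.mono (odds_ct hM hP) (hS' z w hz1 hz0 hon).2⟩

end Pool.Agent.Q35.ZC
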