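import Pool.Agent.Q35.ZC.Stm
import Pool.Agent.Q35.TT.Stm3

/-!
# Fibres of `w² = e f(x)` which split: statements (project ZC, helper35)
-/

set_option autoImplicit false

open MvPolynomial Pool.Agent.Q35.TT

namespace Pool.Agent.Q35.ZC

/-- NDS: a line on which `e f` is the square of a nonconstant polynomial is not special. -/
def S_NDS : Prop :=
  ∀ (K : Type) [Field K] [CharZero K] (f : MvPolynomial (Fin 2) K), (∀ j, f.degreeOf j ≤ 4) →
    SmoothN f → ∀ i j : Fin 2, i ≠ j → ∀ (z : Fin 2 → K) (e : K) (g : Polynomial K), e ≠ 0 →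
      0 < g.natDegree → (∀ t, e * eval (Function.update z i t) f = g.eval t ^ 2) →
      ND (lc f (af z) i) (lc (pderiv j f) (af z) i)

end Pool.Agent.Q35.ZC
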