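import Pool.Agent.Q35.ZC.Bv
import Pool.Agent.Q35.ZC.Stm2
import Pool.Agent.Q35.TT.All1

/-!
# K3 surfaces `w² = e F(x, y)`: classes of the rational points (project ZC, helper35)

The arguments follow `Pool.Agent.Q222.TT.Opn` (helper222).
-/

set_option autoImplicit false
set_option linter.unusedSectionVars false

open MvPolynomial Pool.Agent.Y720.MZ

namespace Pool.Agent.Q35.ZC

open Pool.Agent.Q35.TT (SmoothN TorN Tor TorT lc af bq tay ND S_TWS S_SPE S_TBN)
open Pool.Agent.Q121.TT (cf lc_zero lc_one)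
open Pool.Agent.Q190.TT (lc_smul bq_smul)
open Pool.Agent.Q222.TT.Opn (eval_lc Tq_lc rst_coef)

section

variable {K : Type} [Field K] [CharZero K]

theorem moves_of {g : MvPolynomial (Fin 2) K} (hg : ∀ j, g.degreeOf j ≤ 4) {z : Fin 2 → K} {w : K}
    {i : Fin 2} (hw : w ≠ 0) (hon : w ^ 2 = eval z g) (hG : GenusOne (line g z i))
    (hI : ∀ N : ℕ, N ≠ 0 → ¬ Tor (lc g (af z) i) (z i) w N) : Moves g (z, w) i := by
  refine ⟨hG, ?_⟩
  have hT := genusOne_iff.1 hG
  have h1 : IOt (th g (Pi.single i 1) z w) := by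
    refine ⟨?_, ?_⟩
    · let : DecidableEq K := Classical.decEq K
      rw [Tq_eq (show onX g z w from hon)]
      exact hT
    · intro h n hn h0
      refine hI n hn ⟨hw, ?_, ?_, ?_⟩
      · rw [hon, eval_lc hg z i]
      · rw [← Tq_lc hg z i]
        exact hT
      · obtain ⟨e0, e1, e2, e3⟩ := rst_coef hg z i
        rw [← e0, ← e1, ← e2, ← e3]
        exact ⟨h, h0⟩
  exact h1.2

omit [CharZero K] in
theorem line_twist (e : K) (g : MvPolynomial (Fin 2) K) (x : Fin 2 → K) (i : Fin 2) :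
    line (C e * g) x i = Polynomial.C e * line g x i := by
  rw [line, map_mul, aeval_C]
  rfl

omit [CharZero K] in
theorem genus_twist {e : K} (he : e ≠ 0) {q : Polynomial K} (h : GenusOne q) :
    GenusOne (Polynomial.C e * q) := by
  have e1 : (jacobian (Polynomial.C e * q) ((Polynomial.C e * q).coeff 0)).Δ =
      e ^ 6 * (jacobian q (q.coeff 0)).Δ := by
    simp only [jacobian, WeierstrassCurve.Δ, WeierstrassCurve.b₂, WeierstrassCurve.b₄, WeierstrassCurve.b₆,
      WeierstrassCurve.b₈, Polynomial.coeff_C_mul]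
    ring
  rw [GenusOne, e1]
  exact mul_ne_zero (pow_ne_zero 6 he) h

omit [CharZero K] in
theorem special_twist {e : K} (he : e ≠ 0) {g : MvPolynomial (Fin 2) K} {x : Fin 2 → K} {i j : Fin 2}
    (h : NotSpecial g x i j) : NotSpecial (C e * g) x i j := by
  obtain ⟨h1, u, h2⟩ := h
  refine ⟨?_, u, ?_⟩
  · rw [pderiv_C_mul, line_twist, line_twist]
    intro h3
    apply h1
    have hu : IsUnit (Polynomial.C e) := Polynomial.isUnit_C.2 he.isUnit
    exact (hu.dvd_mul_left.1 ((dvd_mul_left _ _).trans h3))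
  · rw [line_twist]
    exact genus_twist he h2

theorem line_eq (g : MvPolynomial (Fin 2) K) (x : Fin 2 → K) (i : Fin 2) :
    Pool.Agent.Results.MP_ed3816_nt.OpenAwayFromTorsion.line g x i = line g x i := rfl

theorem genus_eq (q : Polynomial K) :
    Pool.Agent.Results.MP_ed3816_nt.OpenAwayFromTorsion.GenusOne q ↔ GenusOne q := Iff.rfl

/-- All but finitely many lines are not special. -/
theorem finite_special (h3 : S_SPE) {f : MvPolynomial (Fin 2) K} (hf : ∀ j, f.degreeOf j ≤ 4)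
    (hs : SmoothN f) (i j : Fin 2) (hij : i ≠ j) :
    {c : K | ∃ x : Fin 2 → K, x j = c ∧ ¬ (GenusOne (line f x i) ∧ NotSpecial f x i j)}.Finite := by
  have hreg := (Pool.Agent.Results.MP_ed3816_nt.OpenAwayFromTorsion.result).2 K f hf
    (Pool.Agent.Q222.TT.Opn.ex_genus h3 hf hs) (Pool.Agent.Q222.TT.Opn.not_prod h3 hf hs) K
    (RingHom.id K) i j hij
  simp only [map_id] at hreg
  exact hreg

end

/-- Dense in all products. -/
def Near {K : Type} [Field K] {n : ℕ} (f : MvPolynomial (Fin n) K) (R : Set ((Fin n → K) × K))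
    (P : (Fin n → K) × K) : Prop :=
  ∀ (ι : Type) [Finite ι] [Nonempty ι] (p : ι → ℕ) [∀ v, Fact (p v).Prime],
    Function.Injective p → ∀ σ : ∀ v, K →+* ℚ_[p v],
      Dense f R P σ ∧ ∀ τ : K →+* ℝ, DenseReal f R P σ τ

lemma Near.mono {K : Type} [Field K] {n : ℕ} {f : MvPolynomial (Fin n) K}
    {R R' : Set ((Fin n → K) × K)} (h : R ⊆ R') {P : (Fin n → K) × K} (hN : Near f R P) :
    Near f R' P := fun ι _ _ p _ hp σ =>
  ⟨dense_mono h (hN ι p hp σ).1, fun τ => denseReal_mono h ((hN ι p hp σ).2 τ)⟩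

/-- Points for which one direction serves for both. -/
theorem near_two (hS : S_STEP) (h2 : S_TWS) {K : Type} [Field K] [NumberField K]
    {f : MvPolynomial (Fin 2) K} (hf : ∀ j, f.degreeOf j ≤ 4) {e : K} (he : e ≠ 0) {z : Fin 2 → K}
    {w : K} (hw : w ≠ 0) (hon : w ^ 2 = eval z (C e * f)) {i : Fin 2} (hi : ¬ TorN f z i)
    (hG : GenusOne (line f z i)) (hN : ∀ j, j ≠ i → NotSpecial f z i j) :
    Near (C e * f) (Odds (C e * f) (z, w)) (z, w) := by
  intro ι _ _ p _ hinj σ
  have hg : ∀ j, (C e * f).degreeOf j ≤ 4 := fun j => (degreeOf_C_mul_le f j e).trans (hf j)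
  have hG' : GenusOne (line (C e * f) z i) := by
    rw [line_twist]
    exact genus_twist he hG
  have hI : ∀ N : ℕ, N ≠ 0 → ¬ Tor (lc (C e * f) (af z) i) (z i) w N := by
    intro N hN h5
    rw [lc_smul f e he, h2 K _ e _ _ _ he] at h5
    exact hi ⟨N, hN, h5.2.2⟩
  exact near hS hg (P := (z, w)) hon hw (fun j => ⟨i, moves_of hg hw hon hG' hI, by
    by_cases h : i = j
    · exact Or.inl h
    · exact Or.inr (special_twist he (hN j (Ne.symm h)))⟩) hinj σ

/-- **Almost all rational points.** -/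
theorem k3_near (hS : S_STEP) (h1 : Pool.Agent.Q35.TT.S_TAN) (h2 : S_TWS) (h3 : S_SPE) {K : Type}
    [Field K] [NumberField K] {f : MvPolynomial (Fin 2) K} (hf : ∀ j, f.degreeOf j ≤ 4)
    (hs : SmoothN f) :
    ∃ (T : Set (Fin 2 → K)) (E : Fin 2 → Set K), T.Finite ∧ (∀ j, (E j).Finite) ∧
      ∀ e : K, e ≠ 0 → ∀ (z : Fin 2 → K) (w : K), w ≠ 0 → w ^ 2 = eval z (C e * f) → z ∉ T →
        (∀ j, z j ∉ E j) → Near (C e * f) (Odds (C e * f) (z, w)) (z, w) := by
  refine ⟨{z | ∀ i, TorN f z i}, fun j => {c | ∃ i, i ≠ j ∧ ∃ x : Fin 2 → K, x j = c ∧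
    ¬ (GenusOne (line f x i) ∧ NotSpecial f x i j)}, h1 K 2 f hf hs, fun j => ?_, ?_⟩
  · have h4 : (⋃ i ∈ {i : Fin 2 | i ≠ j}, {c | ∃ x : Fin 2 → K, x j = c ∧
        ¬ (GenusOne (line f x i) ∧ NotSpecial f x i j)}).Finite :=
      (Set.toFinite _).biUnion fun i hi => finite_special h3 hf hs i j hi
    refine h4.subset ?_
    rintro c ⟨i, hi, x, hx, hn⟩
    exact Set.mem_iUnion₂.2 ⟨i, hi, x, hx, hn⟩
  intro e he z w hw hon hT hE
  rw [Set.mem_ofPred_eq] at hT
  push Not at hT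
  obtain ⟨i, hi⟩ := hT
  have hGN : ∀ i j, i ≠ j → GenusOne (line f z i) ∧ NotSpecial f z i j := by
    intro i j hij
    by_contra hcon
    exact hE j ⟨i, hij, z, rfl, hcon⟩
  have hG : GenusOne (line f z i) := by
    rcases (show i = 0 ∨ i = 1 by omega) with rfl | rfl
    · exact (hGN 0 1 (by decide)).1
    · exact (hGN 1 0 (by decide)).1
  exact near_two hS h2 hf he hw hon hi hG fun j hj => (hGN i j (Ne.symm hj)).2

/-- **Split fibres.** -/
theorem k3_split (hS : S_STEP) (h2 : S_TWS) (h3 : S_SPE) (h4 : S_TBN) (h5 : S_NDS) {K : Type}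
    [Field K] [NumberField K] {f : MvPolynomial (Fin 2) K} (hf : ∀ j, f.degreeOf j ≤ 4)
    (hs : SmoothN f) {e : K} (he : e ≠ 0) {i j : Fin 2} (hij : i ≠ j) {c : K} {g : Polynomial K}
    (hg : 0 < g.natDegree) (hsq : ∀ z : Fin 2 → K, z j = c → e * eval z f = g.eval (z i) ^ 2) :
    ∃ S : Set K, S.Finite ∧ ∀ (z : Fin 2 → K) (w : K), z j = c → z i ∉ S →
      w ^ 2 = eval z (C e * f) →
        w ≠ 0 ∧ Near (C e * f) (Odds (C e * f) (z, w)) (z, w) := by
  classical
  set z₀ : Fin 2 → K := fun _ => c with hz₀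
  have hij' : ∀ k : Fin 2, k ≠ i → k = j := by
    intro k hk
    have := hij
    omega
  have hup : ∀ z : Fin 2 → K, z j = c → z = Function.update z₀ i (z i) := by
    intro z hz
    funext k
    by_cases hk : k = i
    · subst hk; simp
    · rw [Function.update_of_ne hk, hij' k hk, hz]
  have hND : ND (lc f (af z₀) i) (lc (pderiv j f) (af z₀) i) :=
    h5 K f hf hs i j hij z₀ e g he hg fun t => by
      rw [hsq _ (by rw [Function.update_of_ne (Ne.symm hij)])]
      simp
  have hfin1 : {t : K | TorN f (Function.update z₀ i t) j}.Finite := h4 K 2 f hf z₀ i j hij hND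
  have hfin2 : {c : K | ∃ x : Fin 2 → K, x i = c ∧
      ¬ (GenusOne (line f x j) ∧ NotSpecial f x j i)}.Finite :=
    finite_special h3 hf hs j i (Ne.symm hij)
  have hfin3 : {t : K | g.eval t = 0}.Finite :=
    Polynomial.finite_setOf_isRoot (by rintro rfl; simp at hg)
  refine ⟨_, (hfin1.union hfin2).union hfin3, fun z w hz hS' hon => ?_⟩
  rw [Set.mem_union, Set.mem_union, not_or, not_or] at hS'
  obtain ⟨⟨k1, k2⟩, k3⟩ := hS'
  have hev : eval z (C e * f) = g.eval (z i) ^ 2 := by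
    rw [map_mul, eval_C]
    exact hsq z hz
  have hw : w ≠ 0 := by
    rintro rfl
    apply k3
    rw [Set.mem_ofPred_eq]
    rw [hev, zero_pow two_ne_zero] at hon
    exact pow_eq_zero_iff two_ne_zero |>.1 hon.symm
  refine ⟨hw, ?_⟩
  have hGN : GenusOne (line f z j) ∧ NotSpecial f z j i := by
    by_contra hcon
    exact k2 ⟨z, rfl, hcon⟩
  refine near_two hS h2 hf he hw hon (i := j) ?_ hGN.1 fun k hk => ?_
  · rw [hup z hz]
    exact k1
  · have : k = i := by
      by_contra hki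
      exact hk (hij' k hki)
    rw [this]
    exact hGN.2

end Pool.Agent.Q35.ZC
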