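import Pool.Agent.Q35.ZC.Stm

/-!
# Rational points close to a local point on a genus one curve, with multiples (project ZC, helper35)

The proofs follow `Pool.Agent.Y720.WL.LemE`, `LemEp` (helper720).
-/

set_option autoImplicit false
set_option linter.unusedVariables false
set_option linter.unusedSectionVars false

open WeierstrassCurve Filter Topology Pool.Agent.Y720.MZ

namespace Pool.Agent.Q35.ZC

section main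

variable {K : Type*} [Field K] [CharZero K] {ι : Type*} [Fintype ι] {p : ι → ℕ}
  [hp : ∀ i, Fact (p i).Prime]
  {σ : ∀ i, K →+* ℚ_[p i]} {τ : K →+* ℝ} {θ₀ : ∀ i, ℚ_[p i] × (Fin 4 → ℚ_[p i])}
  {θ' : ℝ × (Fin 4 → ℝ)}

/-- **Rational points of a genus one curve close to a local point, uniformly.** -/
theorem lemELR [Nonempty ι] [∀ i, DecidableEq ℚ_[p i]] [DecidableEq ℝ]
    (hinj : Function.Injective p) (hw : ∀ i, (θ₀ i).1 ≠ 0) (hwr : θ'.1 ≠ 0)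
    (hD : ∀ i, dsc (tA (θ₀ i)) (tB (θ₀ i)) (tC (θ₀ i)) ≠ 0)
    (hD' : dsc (tA θ') (tB θ') (tC θ') ≠ 0)
    (hS : ∀ i, ∀ h, ∀ n : ℕ, n ≠ 0 → n • (.some (tX (θ₀ i)) (tY (θ₀ i)) h :
      Pt (tA (θ₀ i)) (tB (θ₀ i)) (tC (θ₀ i))) ≠ 0)
    (hS' : ∀ h, ∀ n : ℕ, n ≠ 0 → n • (.some (tX θ') (tY θ') h :
      Pt (tA θ') (tB θ') (tC θ')) ≠ 0) :
    ∃ δ : ℝ, 0 < δ ∧ ∀ θ : K × (Fin 4 → K), (∀ i, ‖σ i θ.1 - (θ₀ i).1‖ < δ) →
      (∀ i j, ‖σ i (θ.2 j) - (θ₀ i).2 j‖ < δ) → |τ θ.1 - θ'.1| < δ →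
      (∀ j, |τ (θ.2 j) - θ'.2 j| < δ) →
      ∀ (t Y : ∀ i, ℚ_[p i]) (t' Y' : ℝ), (∀ i, ‖t i‖ < δ) → (∀ i, ‖Y i - (θ₀ i).1‖ < δ) →
      |t'| < δ → |Y' - θ'.1| < δ →
      (∀ i, Y i ^ 2 = qv (σ i θ.1) (fun j => σ i (θ.2 j)) (t i)) →
      Y' ^ 2 = qv (τ θ.1) (fun j => τ (θ.2 j)) t' → ∀ η : ℝ, 0 < η →
      ∃ s Z : K, MulPt θ s Z ∧ (∀ i, ‖σ i s - t i‖ < η ∧ ‖σ i Z - Y i‖ < η) ∧
        |τ s - t'| < η ∧ |τ Z - Y'| < η := by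
  letI : DecidableEq K := Classical.decEq K
  have hns := fun i => tns (hw i) (hD i)
  have hns' := tns hwr hD'
  have hinf := fun i => hS i (hns i)
  have hinf' := hS' hns'
  obtain ⟨N, hN, hNp, hNr⟩ := near_allL hD hD' hinf hinf'
    (r := fun i => min (1 / (100 * CL (θ₀ i))) ‖(p i : ℚ_[p i])‖)
    (fun i => lt_min (Bd_baseL (θ₀ i)).hρ norm_p_pos) (fun i => min_le_left _ _)
    (r' := 1 / (100 * CL θ') / 6) (div_pos (Bd_baseL θ').hρ (by norm_num))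
  set S₀ : ∀ i, Pt (tA (θ₀ i)) (tB (θ₀ i)) (tC (θ₀ i)) := fun i => .some _ _ (hns i) with hS₀
  set r : ι → ℝ := fun i => av (RingHom.id _) (TT (N • S₀ i)) with hr
  have hrm : ∀ i, r i ≤ min (1 / (100 * CL (θ₀ i))) ‖(p i : ℚ_[p i])‖ := fun i => (hNp i).le
  have hr1 : ∀ i, r i ≤ 1 / (100 * CL (θ₀ i)) := fun i => (hrm i).trans (min_le_left _ _)
  have hrp : ∀ i, r i ≤ ‖(p i : ℚ_[p i])‖ := fun i => (hrm i).trans (min_le_right _ _)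
  have hr0 : ∀ i, 0 < r i := fun i => (av (RingHom.id _)).pos
    (TT_ne (Bd_baseL (θ₀ i)) (min_le_left _ _) (hNp i) (hinf i N hN))
  have ev1 : ∀ᶠ θ in lL σ τ θ₀ θ', θ.1 ≠ 0 := TnL_r.ne hwr
  have ev2 : ∀ᶠ θ in lL σ τ θ₀ θ', dsc (tA θ) (tB θ) (tC θ) ≠ 0 := TnL_r.dsc_ne hD'
  have ev3 : ∀ᶠ θ in lL σ τ θ₀ θ', ∀ i, Bd (av (σ i)) (tA θ) (tB θ) (tC θ)
      (CL (θ₀ i)) (1 / (100 * CL (θ₀ i))) := eventually_all.2 fun i => (TnL_p i).Bd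
  have ev4 : ∀ᶠ θ in lL σ τ θ₀ θ', Bd (av τ) (tA θ) (tB θ) (tC θ)
      (CL θ') (1 / (100 * CL θ')) := TnL_r.Bd
  have ev5 := eventually_all.2 fun i => ev_pL (σ := σ i) (l := lL σ τ θ₀ θ') (TnL_p i) (hw i)
    (hns i) (hinf i) hN (min_le_left _ _) (hNp i)
  have ev6 := ev_rL (σ := τ) (l := lL σ τ θ₀ θ') TnL_r hwr hns' hinf' hN hNr
  obtain ⟨δ₁, hδ₁, hb⟩ := lL_ev (ev1.and (ev2.and (ev3.and (ev4.and (ev5.and ev6)))))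
  choose δp hδp hcp using fun i => convL (σ i) (w₀ := (θ₀ i).1) (q₀ := (θ₀ i).2) (hw i) (hr0 i)
    (Bd_baseL (θ₀ i)).hρ
  obtain ⟨δr, hδr, hcr⟩ := convL τ (w₀ := θ'.1) (q₀ := θ'.2) hwr
    (div_pos (Bd_baseL θ').hρ (by norm_num : (0 : ℝ) < 12)) (Bd_baseL θ').hρ
  obtain ⟨δ₂, hδ₂, hδ₂p⟩ := fin_min hδp
  obtain ⟨δ₃, hδ₃, hδ₃p⟩ := fin_min (f := fun i => ‖(θ₀ i).1‖) fun i =>
    norm_pos_iff.2 (hw i)
  have hw' : 0 < |θ'.1| := abs_pos.2 hwr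
  set δ := min (min δ₁ δ₂) (min δ₃ (min δr |θ'.1|)) with hδ
  have d1 : δ ≤ δ₁ := (min_le_left _ _).trans (min_le_left _ _)
  have d2 : δ ≤ δ₂ := (min_le_left _ _).trans (min_le_right _ _)
  have d3 : δ ≤ δ₃ := (min_le_right _ _).trans (min_le_left _ _)
  have d4 : δ ≤ δr := (min_le_right _ _).trans ((min_le_right _ _).trans (min_le_left _ _))
  have d5 : δ ≤ |θ'.1| := (min_le_right _ _).trans ((min_le_right _ _).trans (min_le_right _ _))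
  refine ⟨δ, lt_min (lt_min hδ₁ hδ₂) (lt_min hδ₃ (lt_min hδr hw')), ?_⟩
  intro θ h1 h2 h3 h4 t Y t' Y' ht hY ht' hY' he he' η hη
  obtain ⟨g1, g2, g3, g4, g5, g6⟩ := hb θ (fun i => (h1 i).trans_le d1)
    (fun i j => (h2 i j).trans_le d1) (h3.trans_le d1) (fun j => (h4 j).trans_le d1)
  have hnsθ := tns g1 g2
  -- the targets are moved away from zero
  have hp1 : ∀ i, ∃ s Z : ℚ_[p i], s ≠ 0 ∧ ‖s‖ < δ ∧ ‖Z - (θ₀ i).1‖ < δ ∧ ‖s - t i‖ < η / 2 ∧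
      ‖Z - Y i‖ < η / 2 ∧ Z ^ 2 = qv (σ i θ.1) (fun j => σ i (θ.2 j)) s := by
    intro i
    have hYne : Y i ≠ 0 := by
      intro h0
      have := hY i
      rw [h0, zero_sub, norm_neg] at this
      exact absurd (this.trans_le (d3.trans (hδ₃p i))) (lt_irrefl _)
    obtain ⟨s, Z, k1, k2, k3, k4⟩ := perturb (g := qv (σ i θ.1) (fun j => σ i (θ.2 j)))
      (by unfold qv; fun_prop) (he i) hYne
      (η := min (η / 2) (min (δ - ‖t i‖) (δ - ‖Y i - (θ₀ i).1‖)))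
      (lt_min (half_pos hη) (lt_min (sub_pos.2 (ht i)) (sub_pos.2 (hY i))))
    have k5 := k2.trans_le (min_le_left _ _)
    have k6 := k3.trans_le (min_le_left _ _)
    have k7 := k2.trans_le ((min_le_right _ _).trans (min_le_left _ _))
    have k8 := k3.trans_le ((min_le_right _ _).trans (min_le_right _ _))
    refine ⟨s, Z, k1, ?_, ?_, k5, k6, k4⟩
    · have : ‖s‖ ≤ ‖s - t i‖ + ‖t i‖ := by
        have := norm_add_le (s - t i) (t i)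
        rwa [sub_add_cancel] at this
      linarith
    · have : ‖Z - (θ₀ i).1‖ ≤ ‖Z - Y i‖ + ‖Y i - (θ₀ i).1‖ := by
        have := norm_add_le (Z - Y i) (Y i - (θ₀ i).1)
        rwa [sub_add_sub_cancel] at this
      linarith
  obtain ⟨s', Z', m1, m2, m3, m4, m5, m6⟩ : ∃ s Z : ℝ, s ≠ 0 ∧ |s| < δ ∧ |Z - θ'.1| < δ ∧
      |s - t'| < η / 2 ∧ |Z - Y'| < η / 2 ∧ Z ^ 2 = qv (τ θ.1) (fun j => τ (θ.2 j)) s := by
    have hYne : Y' ≠ 0 := by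
      intro h0
      have := hY'
      rw [h0, zero_sub, abs_neg] at this
      exact absurd (this.trans_le d5) (lt_irrefl _)
    obtain ⟨s, Z, k1, k2, k3, k4⟩ := perturb (g := qv (τ θ.1) (fun j => τ (θ.2 j)))
      (by unfold qv; fun_prop) he' hYne
      (η := min (η / 2) (min (δ - |t'|) (δ - |Y' - θ'.1|)))
      (lt_min (half_pos hη) (lt_min (sub_pos.2 ht') (sub_pos.2 hY')))
    rw [Real.norm_eq_abs] at k2 k3
    have k5 := k2.trans_le (min_le_left _ _)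
    have k6 := k3.trans_le (min_le_left _ _)
    have k7 := k2.trans_le ((min_le_right _ _).trans (min_le_left _ _))
    have k8 := k3.trans_le ((min_le_right _ _).trans (min_le_right _ _))
    refine ⟨s, Z, k1, ?_, ?_, k5, k6, k4⟩
    · have : |s| ≤ |s - t'| + |t'| := by
        have := abs_add_le (s - t') t'
        rwa [sub_add_cancel] at this
      linarith
    · have : |Z - θ'.1| ≤ |Z - Y'| + |Y' - θ'.1| := by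
        have := abs_add_le (Z - Y') (Y' - θ'.1)
        rwa [sub_add_sub_cancel] at this
      linarith
  choose s Z n1 n2 n3 n4 n5 n6 using hp1
  -- the points of the resolvents
  have hx1 : ∀ i, ∃ x y : ℚ_[p i], y ^ 2 = x ^ 3 + σ i (θ.2 1) * x ^ 2 +
      rb (σ i θ.1) (σ i (θ.2 0)) (σ i (θ.2 2)) (σ i (θ.2 3)) * x +
      rc (σ i θ.1) (σ i (θ.2 0)) (σ i (θ.2 1)) (σ i (θ.2 2)) (σ i (θ.2 3)) ∧ x ≠ 0 ∧ y ≠ 0 ∧
      ‖x / y‖ ≤ r i ∧ ‖1 / y‖ ≤ 1 / (100 * CL (θ₀ i)) ∧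
      Df (σ i θ.1) (σ i (θ.2 0)) (σ i (θ.2 2)) x y ≠ 0 ∧
      s i = tf (σ i θ.1) (σ i (θ.2 0)) (σ i (θ.2 1)) (σ i (θ.2 2)) x y ∧
      Z i = Yf (σ i θ.1) (σ i (θ.2 0)) (σ i (θ.2 1)) (σ i (θ.2 2)) x y := fun i =>
    (hcp i θ.1 θ.2 ((h1 i).trans_le (d2.trans (hδ₂p i)))
      (fun j => (h2 i j).trans_le (d2.trans (hδ₂p i))) (s i) (Z i) (n1 i)
      ((n2 i).trans_le (d2.trans (hδ₂p i))) ((n3 i).trans_le (d2.trans (hδ₂p i))) (n6 i)).2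
  choose x y c1 c0 c2 c3 c4 c5 c6 c7 using hx1
  obtain ⟨x', y', b1, b0, b2, b3, b4, b5, b6, b7⟩ := (hcr θ.1 θ.2 (h3.trans_le d4)
    (fun j => (h4 j).trans_le d4) s' Z' m1 (m2.trans_le d4) (m3.trans_le d4) m6).2
  choose ηp hηp hcc using fun i => conv_cont (σ i) (w := θ.1) (q₁ := θ.2 0) (q₂ := θ.2 1)
    (q₃ := θ.2 2) (q₄ := θ.2 3) (g3 i) g1 (c1 i) (c2 i) ((c3 i).trans (hr1 i)) (c4 i) (c5 i)
    (half_pos hη)
  have hρ' := (Bd_baseL θ').hρ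
  obtain ⟨ηr, hηr, hccr⟩ := conv_cont τ (w := θ.1) (q₁ := θ.2 0) (q₂ := θ.2 1)
    (q₃ := θ.2 2) (q₄ := θ.2 3) g4 g1 b1 b2 (b3.trans (by linarith)) b4 b5 (half_pos hη)
  obtain ⟨η₁, hη₁, hη₁p⟩ := fin_min hηp
  have hxy' : 0 < |x' / y'| := abs_pos.2 (div_ne_zero b0 b2)
  set ηη := min η₁ (min ηr |x' / y'|) with hηη
  have hηη0 : 0 < ηη := lt_min hη₁ (lt_min hηr hxy')
  -- the multiple
  set R := N • (.some _ _ hnsθ : Pt (tA θ) (tB θ) (tC θ)) with hR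
  have hRi : ∀ n : ℕ, n ≠ 0 → n • R ≠ 0 := by
    obtain ⟨i⟩ := ‹Nonempty ι›
    exact U7 (g3 i) (hr1 i) (hr0 i) (hrp i) (g5 i hnsθ).1 (g5 i hnsθ).2
  have hPi : ∀ n : ℕ, n ≠ 0 → n • (.some _ _ hnsθ : Pt (tA θ) (tB θ) (tC θ)) ≠ 0 := by
    intro n hn h0
    apply hRi n hn
    rw [hR, smul_comm, h0, smul_zero]
  obtain ⟨n, hn1, hn2, hn3⟩ := fill_all (σ := σ) (τ := τ) hinj g2 g3 g4 hRi hr0 hr1 hrp
    (fun i => (g5 i hnsθ).1) (fun i => (g5 i hnsθ).2) (g6 hnsθ) (fun i => x i / y i) c3 (x' / y')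
    (by rw [← Real.norm_eq_abs]; exact b3) hηη0
  have hTT : TT (n • R) ≠ 0 := by
    intro h0
    rw [h0, map_zero, zero_sub, abs_neg] at hn3
    exact absurd (hn3.trans_le ((min_le_right _ _).trans (min_le_right _ _))) (lt_irrefl _)
  revert hn1 hn2 hn3 hTT
  generalize hQn : n • R = Q
  intro hn1 hn2 hn3 hTT
  rcases Q with _ | ⟨X, W, hQ⟩
  · exact absurd rfl hTT
  have hXW := (cv_ns.1 hQ).1
  simp only [TT_some] at hn1 hn3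
  obtain ⟨hW, -, -⟩ := (Nb_some hQ).1 hn2
  have hA : ∀ i, _ := fun i => hcc i X W hXW hW
    (((Nb_some hQ).1 (hn1 i).1).2.1.trans (hr1 i)) ((Nb_some hQ).1 (hn1 i).1).2.2
    ((hn1 i).2.trans_le ((min_le_left _ _).trans (hη₁p i)))
  obtain ⟨hB1, hB2, hB3⟩ := hccr X W hXW hW
    (((Nb_some hQ).1 hn2).2.1.trans (by linarith)) ((Nb_some hQ).1 hn2).2.2
    (hn3.trans_le ((min_le_right _ _).trans (min_le_left _ _)))
  refine ⟨tf θ.1 (θ.2 0) (θ.2 1) (θ.2 2) X W, Yf θ.1 (θ.2 0) (θ.2 1) (θ.2 2) X W,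
    ⟨g1, hnsθ, hPi, n * N, X, W, hQ, by rw [mul_smul]; exact hQn, hB1, rfl, rfl⟩, fun i => ⟨?_, ?_⟩, ?_, ?_⟩
  · obtain ⟨-, a2, a3⟩ := hA i
    rw [← c6 i] at a2
    have := norm_sub_le_norm_sub_add_norm_sub (σ i (tf θ.1 (θ.2 0) (θ.2 1) (θ.2 2) X W)) (s i) (t i)
    have := n4 i
    linarith
  · obtain ⟨-, a2, a3⟩ := hA i
    rw [← c7 i] at a3
    have := norm_sub_le_norm_sub_add_norm_sub (σ i (Yf θ.1 (θ.2 0) (θ.2 1) (θ.2 2) X W)) (Z i) (Y i)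
    have := n5 i
    linarith
  · rw [← b6, Real.norm_eq_abs] at hB2
    have := abs_sub_le (τ (tf θ.1 (θ.2 0) (θ.2 1) (θ.2 2) X W)) s' t'
    linarith
  · rw [← b7, Real.norm_eq_abs] at hB3
    have := abs_sub_le (τ (Yf θ.1 (θ.2 0) (θ.2 1) (θ.2 2) X W)) Z' Y'
    linarith

end main

section mainp

variable {K : Type*} [Field K] [CharZero K] {ι : Type*} [Fintype ι] {p : ι → ℕ}
  [hp : ∀ i, Fact (p i).Prime]
  {σ : ∀ i, K →+* ℚ_[p i]} {θ₀ : ∀ i, ℚ_[p i] × (Fin 4 → ℚ_[p i])}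

/-- **Rational points of a genus one curve close to a local point, uniformly.** -/
theorem lemEpR [Nonempty ι] [∀ i, DecidableEq ℚ_[p i]]
    (hinj : Function.Injective p) (hw : ∀ i, (θ₀ i).1 ≠ 0)
    (hD : ∀ i, dsc (tA (θ₀ i)) (tB (θ₀ i)) (tC (θ₀ i)) ≠ 0)
    (hS : ∀ i, ∀ h, ∀ n : ℕ, n ≠ 0 → n • (.some (tX (θ₀ i)) (tY (θ₀ i)) h :
      Pt (tA (θ₀ i)) (tB (θ₀ i)) (tC (θ₀ i))) ≠ 0) :
    ∃ δ : ℝ, 0 < δ ∧ ∀ θ : K × (Fin 4 → K), (∀ i, ‖σ i θ.1 - (θ₀ i).1‖ < δ) →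
      (∀ i j, ‖σ i (θ.2 j) - (θ₀ i).2 j‖ < δ) →
      ∀ (t Y : ∀ i, ℚ_[p i]), (∀ i, ‖t i‖ < δ) → (∀ i, ‖Y i - (θ₀ i).1‖ < δ) →
      (∀ i, Y i ^ 2 = qv (σ i θ.1) (fun j => σ i (θ.2 j)) (t i)) → ∀ η : ℝ, 0 < η →
      ∃ s Z : K, MulPt θ s Z ∧ ∀ i, ‖σ i s - t i‖ < η ∧ ‖σ i Z - Y i‖ < η := by
  letI : DecidableEq K := Classical.decEq K
  have hns := fun i => tns (hw i) (hD i)
  have hinf := fun i => hS i (hns i)
  obtain ⟨i₀⟩ := ‹Nonempty ι›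
  obtain ⟨N, hN, hNp⟩ := near_pL hD hinf
    (r := fun i => min (1 / (100 * CL (θ₀ i))) ‖(p i : ℚ_[p i])‖)
    (fun i => lt_min (Bd_baseL (θ₀ i)).hρ norm_p_pos) (fun i => min_le_left _ _)
  set S₀ : ∀ i, Pt (tA (θ₀ i)) (tB (θ₀ i)) (tC (θ₀ i)) := fun i => .some _ _ (hns i) with hS₀
  set r : ι → ℝ := fun i => av (RingHom.id _) (TT (N • S₀ i)) with hr
  have hrm : ∀ i, r i ≤ min (1 / (100 * CL (θ₀ i))) ‖(p i : ℚ_[p i])‖ := fun i => (hNp i).le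
  have hr1 : ∀ i, r i ≤ 1 / (100 * CL (θ₀ i)) := fun i => (hrm i).trans (min_le_left _ _)
  have hrp : ∀ i, r i ≤ ‖(p i : ℚ_[p i])‖ := fun i => (hrm i).trans (min_le_right _ _)
  have hr0 : ∀ i, 0 < r i := fun i => (av (RingHom.id _)).pos
    (TT_ne (Bd_baseL (θ₀ i)) (min_le_left _ _) (hNp i) (hinf i N hN))
  have ev1 : ∀ᶠ θ in lLp σ θ₀, θ.1 ≠ 0 := (TnLp_p i₀).ne (hw i₀)
  have ev2 : ∀ᶠ θ in lLp σ θ₀, dsc (tA θ) (tB θ) (tC θ) ≠ 0 := (TnLp_p i₀).dsc_ne (hD i₀)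
  have ev3 : ∀ᶠ θ in lLp σ θ₀, ∀ i, Bd (av (σ i)) (tA θ) (tB θ) (tC θ)
      (CL (θ₀ i)) (1 / (100 * CL (θ₀ i))) := eventually_all.2 fun i => (TnLp_p i).Bd
  have ev5 := eventually_all.2 fun i => ev_pL (σ := σ i) (l := lLp σ θ₀) (TnLp_p i) (hw i)
    (hns i) (hinf i) hN (min_le_left _ _) (hNp i)
  obtain ⟨δ₁, hδ₁, hb⟩ := lLp_ev (ev1.and (ev2.and (ev3.and ev5)))
  choose δp hδp hcp using fun i => convL (σ i) (w₀ := (θ₀ i).1) (q₀ := (θ₀ i).2) (hw i) (hr0 i)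
    (Bd_baseL (θ₀ i)).hρ
  have : Nonempty ι := ⟨i₀⟩
  obtain ⟨δ₂, hδ₂, hδ₂p⟩ := fin_min hδp
  obtain ⟨δ₃, hδ₃, hδ₃p⟩ := fin_min (f := fun i => ‖(θ₀ i).1‖) fun i =>
    norm_pos_iff.2 (hw i)
  set δ := min (min δ₁ δ₂) δ₃ with hδ
  have d1 : δ ≤ δ₁ := (min_le_left _ _).trans (min_le_left _ _)
  have d2 : δ ≤ δ₂ := (min_le_left _ _).trans (min_le_right _ _)
  have d3 : δ ≤ δ₃ := min_le_right _ _
  refine ⟨δ, lt_min (lt_min hδ₁ hδ₂) hδ₃, ?_⟩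
  intro θ h1 h2 t Y ht hY he η hη
  obtain ⟨g1, g2, g3, g5⟩ := hb θ (fun i => (h1 i).trans_le d1)
    (fun i j => (h2 i j).trans_le d1)
  have hnsθ := tns g1 g2
  -- the targets are moved away from zero
  have hp1 : ∀ i, ∃ s Z : ℚ_[p i], s ≠ 0 ∧ ‖s‖ < δ ∧ ‖Z - (θ₀ i).1‖ < δ ∧ ‖s - t i‖ < η / 2 ∧
      ‖Z - Y i‖ < η / 2 ∧ Z ^ 2 = qv (σ i θ.1) (fun j => σ i (θ.2 j)) s := by
    intro i
    have hYne : Y i ≠ 0 := by
      intro h0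
      have := hY i
      rw [h0, zero_sub, norm_neg] at this
      exact absurd (this.trans_le (d3.trans (hδ₃p i))) (lt_irrefl _)
    obtain ⟨s, Z, k1, k2, k3, k4⟩ := perturb (g := qv (σ i θ.1) (fun j => σ i (θ.2 j)))
      (by unfold qv; fun_prop) (he i) hYne
      (η := min (η / 2) (min (δ - ‖t i‖) (δ - ‖Y i - (θ₀ i).1‖)))
      (lt_min (half_pos hη) (lt_min (sub_pos.2 (ht i)) (sub_pos.2 (hY i))))
    have k5 := k2.trans_le (min_le_left _ _)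
    have k6 := k3.trans_le (min_le_left _ _)
    have k7 := k2.trans_le ((min_le_right _ _).trans (min_le_left _ _))
    have k8 := k3.trans_le ((min_le_right _ _).trans (min_le_right _ _))
    refine ⟨s, Z, k1, ?_, ?_, k5, k6, k4⟩
    · have : ‖s‖ ≤ ‖s - t i‖ + ‖t i‖ := by
        have := norm_add_le (s - t i) (t i)
        rwa [sub_add_cancel] at this
      linarith
    · have : ‖Z - (θ₀ i).1‖ ≤ ‖Z - Y i‖ + ‖Y i - (θ₀ i).1‖ := by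
        have := norm_add_le (Z - Y i) (Y i - (θ₀ i).1)
        rwa [sub_add_sub_cancel] at this
      linarith
  choose s Z n1 n2 n3 n4 n5 n6 using hp1
  -- the points of the resolvents
  have hx1 : ∀ i, ∃ x y : ℚ_[p i], y ^ 2 = x ^ 3 + σ i (θ.2 1) * x ^ 2 +
      rb (σ i θ.1) (σ i (θ.2 0)) (σ i (θ.2 2)) (σ i (θ.2 3)) * x +
      rc (σ i θ.1) (σ i (θ.2 0)) (σ i (θ.2 1)) (σ i (θ.2 2)) (σ i (θ.2 3)) ∧ x ≠ 0 ∧ y ≠ 0 ∧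
      ‖x / y‖ ≤ r i ∧ ‖1 / y‖ ≤ 1 / (100 * CL (θ₀ i)) ∧
      Df (σ i θ.1) (σ i (θ.2 0)) (σ i (θ.2 2)) x y ≠ 0 ∧
      s i = tf (σ i θ.1) (σ i (θ.2 0)) (σ i (θ.2 1)) (σ i (θ.2 2)) x y ∧
      Z i = Yf (σ i θ.1) (σ i (θ.2 0)) (σ i (θ.2 1)) (σ i (θ.2 2)) x y := fun i =>
    (hcp i θ.1 θ.2 ((h1 i).trans_le (d2.trans (hδ₂p i)))
      (fun j => (h2 i j).trans_le (d2.trans (hδ₂p i))) (s i) (Z i) (n1 i)
      ((n2 i).trans_le (d2.trans (hδ₂p i))) ((n3 i).trans_le (d2.trans (hδ₂p i))) (n6 i)).2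
  choose x y c1 c0 c2 c3 c4 c5 c6 c7 using hx1
  choose ηp hηp hcc using fun i => conv_cont (σ i) (w := θ.1) (q₁ := θ.2 0) (q₂ := θ.2 1)
    (q₃ := θ.2 2) (q₄ := θ.2 3) (g3 i) g1 (c1 i) (c2 i) ((c3 i).trans (hr1 i)) (c4 i) (c5 i)
    (half_pos hη)
  obtain ⟨η₁, hη₁, hη₁p⟩ := fin_min hηp
  have hxy' : 0 < ‖x i₀ / y i₀‖ := norm_pos_iff.2 (div_ne_zero (c0 i₀) (c2 i₀))
  set ηη := min η₁ ‖x i₀ / y i₀‖ with hηη
  have hηη0 : 0 < ηη := lt_min hη₁ hxy'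
  -- the multiple
  set R := N • (.some _ _ hnsθ : Pt (tA θ) (tB θ) (tC θ)) with hR
  have hRi : ∀ n : ℕ, n ≠ 0 → n • R ≠ 0 :=
    U7 (g3 i₀) (hr1 i₀) (hr0 i₀) (hrp i₀) (g5 i₀ hnsθ).1 (g5 i₀ hnsθ).2
  have hPi : ∀ n : ℕ, n ≠ 0 → n • (.some _ _ hnsθ : Pt (tA θ) (tB θ) (tC θ)) ≠ 0 := by
    intro n hn h0
    apply hRi n hn
    rw [hR, smul_comm, h0, smul_zero]
  obtain ⟨n, hn1⟩ := Pool.Agent.Y720.MZ.fill_p (σ := σ) hinj g3 hr0 hr1 hrp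
    (fun i => (g5 i hnsθ).1) (fun i => (g5 i hnsθ).2) (fun i => x i / y i) c3 hηη0
  have hTT : TT (n • R) ≠ 0 := by
    intro h0
    have h2 := (hn1 i₀).2
    rw [h0, map_zero, zero_sub, norm_neg] at h2
    exact absurd (h2.trans_le (min_le_right _ _)) (lt_irrefl _)
  revert hn1 hTT
  generalize hQn : n • R = Q
  intro hn1 hTT
  rcases Q with _ | ⟨X, W, hQ⟩
  · exact absurd rfl hTT
  have hXW := (cv_ns.1 hQ).1
  simp only [TT_some] at hn1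
  obtain ⟨hW, -, -⟩ := (Nb_some hQ).1 (hn1 i₀).1
  have hA : ∀ i, _ := fun i => hcc i X W hXW hW
    (((Nb_some hQ).1 (hn1 i).1).2.1.trans (hr1 i)) ((Nb_some hQ).1 (hn1 i).1).2.2
    ((hn1 i).2.trans_le ((min_le_left _ _).trans (hη₁p i)))
  refine ⟨tf θ.1 (θ.2 0) (θ.2 1) (θ.2 2) X W, Yf θ.1 (θ.2 0) (θ.2 1) (θ.2 2) X W,
    ⟨g1, hnsθ, hPi, n * N, X, W, hQ, by rw [mul_smul]; exact hQn, (hA i₀).1, rfl, rfl⟩, fun i => ⟨?_, ?_⟩⟩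
  · obtain ⟨-, a2, a3⟩ := hA i
    rw [← c6 i] at a2
    have := norm_sub_le_norm_sub_add_norm_sub (σ i (tf θ.1 (θ.2 0) (θ.2 1) (θ.2 2) X W)) (s i) (t i)
    have := n4 i
    linarith
  · obtain ⟨-, a2, a3⟩ := hA i
    rw [← c7 i] at a3
    have := norm_sub_le_norm_sub_add_norm_sub (σ i (Yf θ.1 (θ.2 0) (θ.2 1) (θ.2 2) X W)) (Z i) (Y i)
    have := n5 i
    linarith

end mainp

end Pool.Agent.Q35.ZC
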