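import Pool.Agent.Q35.ZC.Mvr
import Pool.Agent.Q275.KC.Reg

/-!
# Rational points close to a rational point of `w² = f(x)`, with classes of zero-cycles
(project ZC, helper35)
-/

set_option autoImplicit false
set_option linter.unusedSectionVars false
set_option linter.unusedVariables false

open MvPolynomial Pool.Agent.Y720.MZ

namespace Pool.Agent.Q35.ZC

section defs

/-- The point `(x, w)` lies on the double cover `w² = f(x)`. -/
def OnCover {F : Type} [Field F] {m : ℕ} (f : MvPolynomial (Fin m) F) (P : (Fin m → F) × F) :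
    Prop :=
  P.2 ^ 2 = eval P.1 f

/-- The image of a point under an embedding of fields. -/
def image {K F : Type} [Field K] [Field F] (φ : K →+* F) {m : ℕ}
    (P : (Fin m → K) × K) : (Fin m → F) × F :=
  (fun j => φ (P.1 j), φ P.2)

/-- The restriction `q(t) = g(x + t e_i)` of a polynomial to the line through `x` in the direction of
the `i`-th coordinate. -/
noncomputable def line {F : Type} [Field F] {m : ℕ} (g : MvPolynomial (Fin m) F) (x : Fin m → F)
    (i : Fin m) : Polynomial F :=
  aeval (fun k => Polynomial.C (x k) +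
    Polynomial.C ((Pi.single i 1 : Fin m → F) k) * Polynomial.X) g

/-- The Jacobian of the curve `w² = c + q₁ t + q₂ t² + q₃ t³ + q₄ t⁴` of genus one (the cubic
resolvent), `q_k` the coefficients of `q`. -/
noncomputable def jacobian {F : Type} [Field F] (q : Polynomial F) (c : F) : WeierstrassCurve F :=
  ⟨0, q.coeff 2, 0, q.coeff 1 * q.coeff 3 - 4 * c * q.coeff 4,
    q.coeff 1 ^ 2 * q.coeff 4 + c * q.coeff 3 ^ 2 - 4 * c * q.coeff 2 * q.coeff 4⟩

/-- The curve `w² = q(t)` is smooth of genus one. -/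
def GenusOne {F : Type} [Field F] (q : Polynomial F) : Prop := (jacobian q (q.coeff 0)).Δ ≠ 0

/-- The first coordinate, on the Jacobian, of the difference of the two points `(0, w)`, `(0, -w)` of
the curve `w² = q(t)`. -/
noncomputable def abscissa {F : Type} [Field F] (q : Polynomial F) (w : F) : F :=
  q.coeff 1 ^ 2 / (4 * w ^ 2) - q.coeff 2

/-- The second coordinate. -/
noncomputable def ordinate {F : Type} [Field F] (q : Polynomial F) (w : F) : F :=
  (q.coeff 1 * abscissa q w + 2 * w ^ 2 * q.coeff 3) / (2 * w)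

/-- The difference of the two points `(0, w)`, `(0, -w)` of the curve `w² = q(t)` has infinite order
in the Jacobian. -/
def InfiniteOrder {F : Type} [Field F] (q : Polynomial F) (w : F) : Prop :=
  letI : DecidableEq F := Classical.decEq F
  ∀ h : (jacobian q (w ^ 2)).toAffine.Nonsingular (abscissa q w) (ordinate q w),
    ∀ n : ℕ, n ≠ 0 → n • (.some (abscissa q w) (ordinate q w) h :
      (jacobian q (w ^ 2)).toAffine.Point) ≠ 0

/-- Moves along the curve in the direction `i` through the point `T = (x, w)`. -/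
def Moves {F : Type} [Field F] {m : ℕ} (g : MvPolynomial (Fin m) F) (T : (Fin m → F) × F)
    (i : Fin m) : Prop :=
  GenusOne (line g T.1 i) ∧ InfiniteOrder (line g T.1 i) T.2

/-- The line in the direction `i` through `x` is not special for the direction `j`. -/
def NotSpecial {F : Type} [Field F] {m : ℕ} (g : MvPolynomial (Fin m) F) (x : Fin m → F)
    (i j : Fin m) : Prop :=
  ¬ line g x i ∣ line (pderiv j g) x i ∧
    ∃ u : F, GenusOne (line g (fun a => x a + u * (Pi.single i 1 : Fin m → F) a) j)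

/-- `i = j`, or the line in the direction `i` through `x` is not special for the direction `j`. -/
def Serves {F : Type} [Field F] {m : ℕ} (g : MvPolynomial (Fin m) F) (x : Fin m → F)
    (i j : Fin m) : Prop :=
  i = j ∨ NotSpecial g x i j

variable {K : Type} [Field K] {m : ℕ} {ι : Type} {p : ι → ℕ} [∀ i, Fact (p i).Prime]

/-- The points of `R` are dense near `P` in the product of the sets of the `ℚ_[p i]`-points. -/
def Dense (f : MvPolynomial (Fin m) K) (R : Set ((Fin m → K) × K)) (P : (Fin m → K) × K)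
    (σ : ∀ i, K →+* ℚ_[p i]) : Prop :=
  ∃ U ∈ nhds (fun i => image (σ i) P), ∀ S ∈ U, (∀ i, OnCover (map (σ i) f) (S i)) →
    S ∈ closure {S | ∃ Q ∈ R, S = fun i => image (σ i) Q}

/-- The points of `R` are dense near `P` in the product of the set of the real points and of the sets
of the `ℚ_[p i]`-points. -/
def DenseReal (f : MvPolynomial (Fin m) K) (R : Set ((Fin m → K) × K)) (P : (Fin m → K) × K)
    (σ : ∀ i, K →+* ℚ_[p i]) (τ : K →+* ℝ) : Prop :=
  ∃ U ∈ nhds (image τ P, fun i => image (σ i) P), ∀ S ∈ U, OnCover (map τ f) S.1 →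
    (∀ i, OnCover (map (σ i) f) (S.2 i)) →
      S ∈ closure {S | ∃ Q ∈ R, S = (image τ Q, fun i => image (σ i) Q)}

/-- The rational points `Q` such that `[Q] - [ι Q]` is an odd multiple of `[P] - [ι P]` modulo
rational equivalence. -/
def Odds (f : MvPolynomial (Fin m) K) (P : (Fin m → K) × K) : Set ((Fin m → K) × K) :=
  {Q | OnCover f Q ∧ ∃ m : ℤ, dl Q.1 Q.2 - (2 * m + 1) • dl P.1 P.2 ∈ Rat f}

end defs

section aux

variable {K : Type} [Field K] [CharZero K] {m : ℕ} {f : MvPolynomial (Fin m) K}

omit [CharZero K] in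
lemma dist_image {F : Type} [NormedField F] (φ : K →+* F) (P : (Fin m → K) × K)
    (T : (Fin m → F) × F) {η : ℝ} (hη : 0 < η) : dist T (image φ P) < η ↔
      (∀ j, ‖φ (P.1 j) - T.1 j‖ < η) ∧ ‖φ P.2 - T.2‖ < η := by
  rw [dist_comm, Prod.dist_eq, max_lt_iff, dist_pi_lt_iff hη]
  simp only [dist_eq_norm, image]

variable {ι : Type} [Finite ι] {p : ι → ℕ} [hp : ∀ i, Fact (p i).Prime]

omit [CharZero K] in
lemma dense_p (σ : ∀ i, K →+* ℚ_[p i]) {P : (Fin m → K) × K} {R : Set ((Fin m → K) × K)}
    (hPR : P ∈ R)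
    (hI : IntR σ (fun z w => (z, w) ∈ R) f (fun i => (image (σ i) P).1)
      (fun i => (image (σ i) P).2)) : Dense f R P σ := by
  have : Fintype ι := Fintype.ofFinite ι
  obtain ⟨ε, hε, hint⟩ := hI
  refine ⟨Metric.ball (fun i => image (σ i) P) ε, Metric.ball_mem_nhds _ hε, fun S hS hSX => ?_⟩
  rw [Metric.mem_ball, dist_pi_lt_iff hε] at hS
  rw [Metric.mem_closure_iff]
  intro η hη
  obtain ⟨z, w, k1, k2⟩ := hint P.1 P.2 hPR (fun i => ⟨fun a => by simp [image, hε],
    by simp [image, hε]⟩)
    (fun i => (S i).1) (fun i => (S i).2) hSX (fun i => by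
      have h3 := hS i
      rw [Prod.dist_eq, max_lt_iff, dist_pi_lt_iff hε] at h3
      simp only [dist_eq_norm] at h3
      exact h3) η hη
  refine ⟨_, ⟨(z, w), k1, rfl⟩, ?_⟩
  rw [dist_pi_lt_iff hη]
  exact fun i => (dist_image (σ i) (z, w) (S i) hη).2 (k2 i)

omit [CharZero K] in
lemma dense_r (σ : ∀ i, K →+* ℚ_[p i]) (τ : K →+* ℝ) {P : (Fin m → K) × K}
    {R : Set ((Fin m → K) × K)} (hPR : P ∈ R)
    (hI : IntR (sv σ τ) (fun z w => (z, w) ∈ R) f (fun v a => sv σ τ v (P.1 a))
      (fun v => sv σ τ v P.2)) : DenseReal f R P σ τ := by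
  have : Fintype ι := Fintype.ofFinite ι
  obtain ⟨ε, hε, hint⟩ := hI
  refine ⟨Metric.ball (image τ P, fun i => image (σ i) P) ε, Metric.ball_mem_nhds _ hε,
    fun S hS hSr hSX => ?_⟩
  rw [Metric.mem_ball, Prod.dist_eq, max_lt_iff, dist_pi_lt_iff hε] at hS
  rw [Metric.mem_closure_iff]
  intro η hη
  let x' : ∀ v : Option ι, Fin m → Lv p v := fun v =>
    match v with
    | none => S.1.1
    | some i => (S.2 i).1
  let y' : ∀ v : Option ι, Lv p v := fun v =>
    match v with
    | none => S.1.2
    | some i => (S.2 i).2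
  obtain ⟨z, w, k1, k2⟩ := hint P.1 P.2 hPR (fun v => ⟨fun a => by rw [sub_self, norm_zero]; exact hε,
    by rw [sub_self, norm_zero]; exact hε⟩) x' y'
    (by
      rintro (_ | i)
      · exact hSr
      · exact hSX i)
    (by
      rintro (_ | i)
      · have h3 := hS.1
        rw [Prod.dist_eq, max_lt_iff, dist_pi_lt_iff hε] at h3
        simp only [dist_eq_norm] at h3
        exact h3
      · have h3 := hS.2 i
        rw [Prod.dist_eq, max_lt_iff, dist_pi_lt_iff hε] at h3
        simp only [dist_eq_norm] at h3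
        exact h3) η hη
  refine ⟨_, ⟨(z, w), k1, rfl⟩, ?_⟩
  rw [Prod.dist_eq, max_lt_iff, dist_pi_lt_iff hη]
  exact ⟨(dist_image τ (z, w) S.1 hη).2 (k2 none),
    fun i => (dist_image (σ i) (z, w) (S.2 i) hη).2 (k2 (some i))⟩

end aux

section cond

variable {F : Type} [Field F] [CharZero F] {m : ℕ} {g : MvPolynomial (Fin m) F} {x : Fin m → F}
  {i : Fin m}

lemma delta (a b c : F) : (⟨0, a, 0, b, c⟩ : WeierstrassCurve F).Δ = 16 * dsc a b c := by
  simp only [WeierstrassCurve.Δ, WeierstrassCurve.b₂, WeierstrassCurve.b₄, WeierstrassCurve.b₆,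
    WeierstrassCurve.b₈, dsc]
  ring

lemma line_zero : (line g x i).coeff 0 = eval x g := by
  have h1 : (line g x i).eval 0 = eval x g := by
    have := rst_eval g x (Pi.single i 1) 0
    rw [zero_smul, add_zero] at this
    exact this
  rw [← h1, Polynomial.coeff_zero_eq_eval_zero]

lemma genusOne_iff : GenusOne (line g x i) ↔ Tq g (Pi.single i 1) x ≠ 0 := by
  have h1 : (jacobian (line g x i) ((line g x i).coeff 0)).Δ = 16 * Tq g (Pi.single i 1) x := by
    rw [jacobian, delta, line_zero]
    rfl
  rw [GenusOne, h1]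
  exact mul_ne_zero_iff_left (by norm_num)

lemma tr_regular (hd : ∀ j, g.degreeOf j ≤ 4) (hg : GenusOne (line g x i)) {j : Fin m}
    (h : NotSpecial g x i j) : Tr g (Pi.single i 1) (Pi.single j 1) x := by
  obtain ⟨h1, u, hu⟩ := h
  exact Pool.Agent.Q35.KC.tr_of (deg_rst (hd i) x) (genusOne_iff.1 hg) h1
    ⟨u, genusOne_iff.1 hu⟩

lemma io_of {w : F} (hP : OnCover g (x, w)) (h : Moves g (x, w) i) :
    IOt (th g (Pi.single i 1) x w) := by
  let : DecidableEq F := Classical.decEq F
  refine ⟨?_, h.2⟩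
  rw [Tq_eq (show onX g x w from hP)]
  exact genusOne_iff.1 h.1

end cond

section transport

variable {K F : Type} [Field K] [CharZero K] [Field F] [CharZero F] (φ : K →+* F) {n : ℕ}

omit [CharZero K] [CharZero F] in
theorem single_map (i : Fin n) : (fun a => φ ((Pi.single i 1 : Fin n → K) a)) = Pi.single i 1 := by
  funext a
  by_cases h : a = i
  · subst h; simp
  · rw [Pi.single_eq_of_ne h, Pi.single_eq_of_ne h, map_zero]

theorem line_map (g : MvPolynomial (Fin n) K) (x : Fin n → K) (i : Fin n) :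
    line (map φ g) (fun j => φ (x j)) i = (line g x i).map φ := by
  have h := rst_map φ g x (Pi.single i 1)
  rw [single_map] at h
  exact h.symm

omit [CharZero K] [CharZero F] in
theorem genus_map {q : Polynomial K} (h : GenusOne q) : GenusOne (q.map φ) := by
  have e : jacobian (q.map φ) ((q.map φ).coeff 0) = (jacobian q (q.coeff 0)).map φ := by
    simp only [jacobian, WeierstrassCurve.map, Polynomial.coeff_map, map_zero, map_sub, map_add, map_mul,
      map_pow, map_ofNat]
  rw [GenusOne, e, WeierstrassCurve.map_Δ]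
  exact (map_ne_zero φ).2 h

theorem special_map {g : MvPolynomial (Fin n) K} {x : Fin n → K} {i j : Fin n} (h : NotSpecial g x i j) :
    NotSpecial (map φ g) (fun j => φ (x j)) i j := by
  obtain ⟨h1, u, h2⟩ := h
  refine ⟨?_, φ u, ?_⟩
  · rw [pderiv_map, line_map, line_map, Polynomial.map_dvd_map']
    exact h1
  · have h3 := genus_map φ h2
    rw [← line_map] at h3
    have e : (fun a => φ (x a) + φ u * (Pi.single i 1 : Fin n → F) a) =
        fun a => φ (x a + u * (Pi.single i 1 : Fin n → K) a) := by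
      funext a
      rw [map_add, map_mul]
      congr 2
      exact (congrFun (single_map φ i) a).symm
    rw [e]
    exact h3

end transport

/-- **Rational points near a rational point, with classes.** -/
theorem near (hS : S_STEP) {K : Type} [Field K] [CharZero K] {n : ℕ} {f : MvPolynomial (Fin n) K}
    (hd : ∀ j, f.degreeOf j ≤ 4) {P : (Fin n → K) × K} (hP : OnCover f P) (hw : P.2 ≠ 0)
    (hc : ∀ j, ∃ i, Moves f P i ∧ Serves f P.1 i j) {ι : Type} [Finite ι] [Nonempty ι] {p : ι → ℕ}
    [∀ v, Fact (p v).Prime] (hinj : Function.Injective p) (σ : ∀ v, K →+* ℚ_[p v]) :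
    Dense f (Odds f P) P σ ∧ ∀ τ : K →+* ℝ, DenseReal f (Odds f P) P σ τ := by
  have hPR : P ∈ Odds f P := ⟨hP, 0, by simp⟩
  have hRX : ∀ z w, (z, w) ∈ Odds f P → onX f z w := fun z w h => h.1
  have hRe : ∀ (i : Fin n) (z : Fin n → K) (w u Z : K), (z, w) ∈ Odds f P →
      MulPt (w, cq f z (Pi.single i 1)) u Z →
        ((fun a => z a + u * (Pi.single i 1 : Fin n → K) a), Z) ∈ Odds f P := by
    intro i z w u Z h hM
    obtain ⟨h1, m, h2⟩ := h
    obtain ⟨m', h3⟩ := hS K n f hd z w i u Z h1 hM
    refine ⟨?_, 2 * m' * m + m' + m, ?_⟩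
    · obtain ⟨hw0, h, -, M, X, W, h', -, hD, hu, hZ⟩ := hM
      change Z ^ 2 = _
      have h4 := Yf_eqn (q₁ := cq f z (Pi.single i 1) 0) (q₂ := cq f z (Pi.single i 1) 1)
        (q₃ := cq f z (Pi.single i 1) 2) (q₄ := cq f z (Pi.single i 1) 3) hw0 (cv_ns.1 h').1 hD
      rw [← hu, ← hZ] at h4
      rw [h4]
      exact cq_eval (deg_rst (hd i) z) h1 u
    · have h4 : dl (mv z i u) Z - (2 * (2 * m' * m + m' + m) + 1) • dl P.1 P.2 =
          (dl (mv z i u) Z - (2 * m' + 1) • dl z w) +
            (2 * m' + 1) • (dl z w - (2 * m + 1) • dl P.1 P.2) := by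
        module
      change dl (mv z i u) Z - (2 * (2 * m' * m + m' + m) + 1) • dl P.1 P.2 ∈ Rat f
      rw [h4]
      exact add_mem h3 (AddSubgroup.zsmul_mem _ h2 _)
  refine ⟨?_, fun τ => ?_⟩
  · have hon : ∀ v, onX (map (σ v) f) (image (σ v) P).1 (image (σ v) P).2 := fun v =>
      onX_map (s := σ) hP v
    have hw' : ∀ v, (image (σ v) P).2 ≠ 0 := fun v => (map_ne_zero (σ v)).2 hw
    have hM : ∀ i, Moves f P i → MvR σ (fun z w => (z, w) ∈ Odds f P) f (Pi.single i 1)
        (fun v => (image (σ v) P).1) (fun v => (image (σ v) P).2) := fun i hi =>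
      mv_ioR (hw_pR hinj σ) hRX (hRe i) (fun z => deg_rst (hd i) z) hw' fun v => by
        have h := io_map (σ v) (io_of hP hi)
        rw [← th_map] at h
        exact h
    refine dense_p σ hPR (int_of_mvR hon hw' hRX fun j => ?_)
    obtain ⟨i, hi, hs⟩ := hc j
    by_cases h : i = j
    · subst h; exact hM i hi
    · refine mv_transferR (hw_pR hinj σ) hon hw' hRX (hRe j) (hM i hi)
        (fun z => deg_rst (hd j) z) fun v => ?_
      rw [single_mapα, single_mapα]
      refine tr_regular (fun k => degreeOf_map_le (σ v) (hd k)) ?_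
        (special_map (σ v) (hs.resolve_left h))
      change GenusOne (line (map (σ v) f) (fun j => σ v (P.1 j)) i)
      rw [line_map]
      exact genus_map (σ v) hi.1
  · have hon : ∀ v, onX (map (sv σ τ v) f) (fun a => sv σ τ v (P.1 a)) (sv σ τ v P.2) := fun v =>
      onX_map (s := sv σ τ) hP v
    have hw' : ∀ v, sv σ τ v P.2 ≠ 0 := fun v => (map_ne_zero (sv σ τ v)).2 hw
    have hM : ∀ i, Moves f P i → MvR (sv σ τ) (fun z w => (z, w) ∈ Odds f P) f (Pi.single i 1)
        (fun v a => sv σ τ v (P.1 a)) (fun v => sv σ τ v P.2) := fun i hi =>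
      mv_ioR (hw_allR hinj σ τ) hRX (hRe i) (fun z => deg_rst (hd i) z) hw' fun v => by
        have h := io_map (sv σ τ v) (io_of hP hi)
        rw [← th_map] at h
        exact h
    refine dense_r σ τ hPR (int_of_mvR hon hw' hRX fun j => ?_)
    obtain ⟨i, hi, hs⟩ := hc j
    by_cases h : i = j
    · subst h; exact hM i hi
    · refine mv_transferR (hw_allR hinj σ τ) hon hw' hRX (hRe j) (hM i hi)
        (fun z => deg_rst (hd j) z) fun v => ?_
      rw [single_mapα, single_mapα]
      rcases v with _ | v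
      · refine tr_regular (fun k => degreeOf_map_le τ (hd k)) ?_
          (special_map τ (hs.resolve_left h))
        change GenusOne (line (map τ f) (fun j => τ (P.1 j)) i)
        rw [line_map]
        exact genus_map τ hi.1
      · refine tr_regular (fun k => degreeOf_map_le (σ v) (hd k)) ?_
          (special_map (σ v) (hs.resolve_left h))
        change GenusOne (line (map (σ v) f) (fun j => σ v (P.1 j)) i)
        rw [line_map]
        exact genus_map (σ v) hi.1

end Pool.Agent.Q35.ZC
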