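import Pool.Agent.Y720.WL.Cy2

/-!
# Zero-cycles and moves on the curves of genus one `w² = q(t)`: statements (project ZC, helper35)

`θ = (w, (q₀, q₁, q₂, q₃))` stands for the curve `C : Y² = q(t) = w² + q₀ t + q₁ t² + q₂ t³ + q₃ t⁴`, `w ≠ 0`.
Its Jacobian is `E : y² = x³ + tA θ x² + tB θ x + tC θ` (`cv (tA θ) (tB θ) (tC θ)`), and
`P = (tX θ, tY θ)` is the difference of the points `P₀ = (0, w)` and `ι P₀ = (0, -w)` of `C`. The point
`S = (x, y)` of `E` with `dq θ x y ≠ 0` corresponds to the point `F(S) = (tq θ x y, yq θ x y)` of `C`,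
linearly equivalent to `P₀ + S`.
-/

set_option autoImplicit false

open Polynomial Pool.Agent.Y720.MZ

namespace Pool.Agent.Q35.ZC

/-- The function `u(t) + v(t) w` on the curve `w² = q(t)` has the zeros `T` (with multiplicities), and
no zero at infinity (as a section of the `M`-th power of the line bundle of degree two). -/
def Zeros {F : Type} [Field F] (q u v : F[X]) (T : Multiset (F × F)) : Prop :=
  IsCoprime u v ∧ (∀ s ∈ T, s.2 ^ 2 = q.eval s.1 ∧ u.eval s.1 + v.eval s.1 * s.2 = 0) ∧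
    (∃ κ : F, κ ≠ 0 ∧ u ^ 2 - v ^ 2 * q = C κ * (T.map fun s => X - C s.1).prod) ∧
    ∃ M : ℕ, T.card = 2 * M ∧ u.natDegree ≤ M ∧ v.natDegree + 2 ≤ M

section

variable {F : Type} [Field F]

/-- The polynomial `q(t)`. -/
noncomputable def qp (θ : F × (Fin 4 → F)) : F[X] :=
  C (θ.1 ^ 2) + C (θ.2 0) * X + C (θ.2 1) * X ^ 2 + C (θ.2 2) * X ^ 3 + C (θ.2 3) * X ^ 4

/-- The parabola `g_x(t) = -w + t (t x - q₀) / (2 w)`, tangent to `C` at `ι P₀`. -/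
noncomputable def gp (θ : F × (Fin 4 → F)) (x : F) : F[X] :=
  C (-θ.1) + C (-(θ.2 0) / (2 * θ.1)) * X + C (x / (2 * θ.1)) * X ^ 2

/-- The denominator of the abscissa of `F(S)`. -/
def dq (θ : F × (Fin 4 → F)) (x y : F) : F := Df θ.1 (θ.2 0) (θ.2 2) x y

/-- The abscissa of `F(S)`. -/
def tq (θ : F × (Fin 4 → F)) (x y : F) : F := tf θ.1 (θ.2 0) (θ.2 1) (θ.2 2) x y

/-- The ordinate of `F(S)`. -/
def yq (θ : F × (Fin 4 → F)) (x y : F) : F := Yf θ.1 (θ.2 0) (θ.2 1) (θ.2 2) x y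

/-- The linear form which vanishes at a point of `C`; `none` is a point at infinity. -/
noncomputable def lq : Option (F × F) → F[X]
  | none => 1
  | some a => X - C a.1

/-- The points `Q k = P₀ + k (P₀ - ι P₀)` of `C` (`none`: at infinity) and the abscissas `x k` of the
points `(k + 1) P` of `E`: the zeros of `gp θ (x k) - Y` are `ι Q k`, `Q (k + 1)` and twice `ι P₀`. -/
structure Seq (θ : F × (Fin 4 → F)) (x : ℕ → F) (Q : ℕ → Option (F × F)) : Prop where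
  zero : Q 0 = some (0, θ.1)
  on : ∀ k a, Q k = some a → a.2 ^ 2 = (qp θ).eval a.1
  norm : ∀ k, ∃ κ : F, κ ≠ 0 ∧ gp θ (x k) ^ 2 - qp θ = C κ * X ^ 2 * lq (Q k) * lq (Q (k + 1))
  left : ∀ k a, Q k = some a → (gp θ (x k)).eval a.1 = -a.2
  right : ∀ k a, Q (k + 1) = some a → (gp θ (x k)).eval a.1 = a.2
  two : ∀ k, Q (k + 1) = none → Q k ≠ none ∧ Q (k + 2) ≠ none ∧ x (k + 1) = -x k ∧
    x k ^ 2 = 4 * θ.1 ^ 2 * θ.2 3
  ne : ∀ k a, Q k = some a → Q (k + 2) ≠ some a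

end

/-- IND: the classes of the points of the sequence. -/
def S_IND : Prop :=
  ∀ (F : Type) [Field F] [CharZero F] (θ : F × (Fin 4 → F)), θ.1 ≠ 0 →
    ∀ (x : ℕ → F) (Q : ℕ → Option (F × F)), Seq θ x Q →
      ∀ (A : Type) [AddCommGroup A] (δ : F × F → A), (∀ t w, δ (t, -w) = -δ (t, w)) →
        (∀ (u v : F[X]) (T : Multiset (F × F)), Zeros (qp θ) u v T → (T.map δ).sum = 0) →
        ∀ m a, Q m = some a → δ a = (2 * m + 1) • δ (0, θ.1)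

/-- FAC: the zeros of `g_x - Y`. -/
def S_FAC : Prop :=
  ∀ (F : Type) [Field F] [CharZero F] (θ : F × (Fin 4 → F)), θ.1 ≠ 0 → ∀ x y : F,
    y ^ 2 = x ^ 3 + tA θ * x ^ 2 + tB θ * x + tC θ → x ≠ tX θ →
    (dq θ x y ≠ 0 → dq θ x (-y) ≠ 0 → ∃ κ : F, κ ≠ 0 ∧ gp θ x ^ 2 - qp θ =
      C κ * X ^ 2 * (X - C (tq θ x (-y))) * (X - C (tq θ x y))) ∧
    (dq θ x y = 0 → y ≠ 0 → dq θ x (-y) ≠ 0 ∧ x ^ 2 = 4 * θ.1 ^ 2 * θ.2 3 ∧
      ∃ κ : F, κ ≠ 0 ∧ gp θ x ^ 2 - qp θ = C κ * X ^ 2 * (X - C (tq θ x (-y))))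

/-- INV: the involution of `C` is `S ↦ -(S + P)` on `E`. -/
def S_INV : Prop :=
  ∀ (F : Type) [Field F] [CharZero F] [DecidableEq F] (θ : F × (Fin 4 → F)), θ.1 ≠ 0 →
    ∀ (x y x' y' : F) (h : (cv (tA θ) (tB θ) (tC θ)).toAffine.Nonsingular x y)
      (hP : (cv (tA θ) (tB θ) (tC θ)).toAffine.Nonsingular (tX θ) (tY θ))
      (h' : (cv (tA θ) (tB θ) (tC θ)).toAffine.Nonsingular x' y'), x ≠ tX θ → x' ≠ tX θ →
      -((.some x y h : Pt (tA θ) (tB θ) (tC θ)) + .some (tX θ) (tY θ) hP) = .some x' y' h' →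
      (dq θ x' y' = 0 ↔ dq θ x y = 0) ∧
      (dq θ x y ≠ 0 → tq θ x' y' = tq θ x y ∧ yq θ x' y' = -yq θ x y)

/-- TAN: the same for `S = P`. -/
def S_TAN : Prop :=
  ∀ (F : Type) [Field F] [CharZero F] [DecidableEq F] (θ : F × (Fin 4 → F)), θ.1 ≠ 0 →
    ∀ (x' y' : F) (hP : (cv (tA θ) (tB θ) (tC θ)).toAffine.Nonsingular (tX θ) (tY θ))
      (h' : (cv (tA θ) (tB θ) (tC θ)).toAffine.Nonsingular x' y'), tY θ ≠ 0 → x' ≠ tX θ →
      -((.some (tX θ) (tY θ) hP : Pt (tA θ) (tB θ) (tC θ)) + .some (tX θ) (tY θ) hP) =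
        .some x' y' h' →
      (dq θ x' y' = 0 ↔ tX θ ^ 2 = 4 * θ.1 ^ 2 * θ.2 3) ∧
      (tX θ ^ 2 ≠ 4 * θ.1 ^ 2 * θ.2 3 → (gp θ (tX θ)).eval (tq θ x' y') = -yq θ x' y' ∧
        ∃ κ : F, κ ≠ 0 ∧ gp θ (tX θ) ^ 2 - qp θ = C κ * X ^ 2 * X * (X - C (tq θ x' y'))) ∧
      (tX θ ^ 2 = 4 * θ.1 ^ 2 * θ.2 3 →
        ∃ κ : F, κ ≠ 0 ∧ gp θ (tX θ) ^ 2 - qp θ = C κ * X ^ 2 * X)

/-- INJ: the point `F(S)` determines `S`; `F(-P) = ι P₀`. -/
def S_INJ : Prop :=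
  ∀ (F : Type) [Field F] [CharZero F] (θ : F × (Fin 4 → F)), θ.1 ≠ 0 →
    (∀ x y : F, y ^ 2 = x ^ 3 + tA θ * x ^ 2 + tB θ * x + tC θ → dq θ x y ≠ 0 →
      yq θ x y ^ 2 = (qp θ).eval (tq θ x y) ∧ (gp θ x).eval (tq θ x y) = yq θ x y) ∧
    (∀ x y x' y' : F, x ≠ tX θ → dq θ x y ≠ 0 → dq θ x' y' ≠ 0 → tq θ x y = tq θ x' y' →
      yq θ x y = yq θ x' y' → x = x' ∧ y = y') ∧
    (tY θ ≠ 0 → dq θ (tX θ) (-tY θ) ≠ 0 ∧ tq θ (tX θ) (-tY θ) = 0 ∧
      yq θ (tX θ) (-tY θ) = -θ.1 ∧ dq θ (tX θ) (tY θ) = 0)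

/-- SEQ: the sequence of the points `P₀ + k (P₀ - ι P₀)`. -/
def S_SEQ : Prop :=
  ∀ (F : Type) [Field F] [CharZero F] [DecidableEq F] (θ : F × (Fin 4 → F)), θ.1 ≠ 0 →
    ∀ h : (cv (tA θ) (tB θ) (tC θ)).toAffine.Nonsingular (tX θ) (tY θ),
      (∀ n : ℕ, n ≠ 0 → n • (.some _ _ h : Pt (tA θ) (tB θ) (tC θ)) ≠ 0) →
      ∃ (x : ℕ → F) (Q : ℕ → Option (F × F)), Seq θ x Q ∧
        (∀ (m : ℕ) (X W : F) (h' : (cv (tA θ) (tB θ) (tC θ)).toAffine.Nonsingular X W),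
          m • (.some _ _ h : Pt (tA θ) (tB θ) (tC θ)) = .some X W h' → dq θ X W ≠ 0 →
            Q m = some (tq θ X W, yq θ X W)) ∧
        ∀ (m : ℕ) (X W : F) (h' : (cv (tA θ) (tB θ) (tC θ)).toAffine.Nonsingular X W),
          (m + 1) • (.some _ _ h : Pt (tA θ) (tB θ) (tC θ)) = .some X W h' → dq θ X (-W) ≠ 0 →
            Q m = some (tq θ X (-W), -yq θ X (-W))

/-- The point `(u, Z)` of the curve is the translate of `P₀` by a multiple of the class of `P₀ - ι P₀`,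
which has infinite order. -/
def MulPt {F : Type*} [Field F] (θ : F × (Fin 4 → F)) (u Z : F) : Prop :=
  letI : DecidableEq F := Classical.decEq F
  θ.1 ≠ 0 ∧ ∃ (h : (cv (tA θ) (tB θ) (tC θ)).toAffine.Nonsingular (tX θ) (tY θ)),
    (∀ n : ℕ, n ≠ 0 → n • (.some _ _ h : Pt (tA θ) (tB θ) (tC θ)) ≠ 0) ∧
    ∃ (m : ℤ) (X W : F) (h' : (cv (tA θ) (tB θ) (tC θ)).toAffine.Nonsingular X W),
      m • (.some _ _ h : Pt (tA θ) (tB θ) (tC θ)) = .some X W h' ∧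
      Df θ.1 (θ.2 0) (θ.2 2) X W ≠ 0 ∧ u = tf θ.1 (θ.2 0) (θ.2 1) (θ.2 2) X W ∧
      Z = Yf θ.1 (θ.2 0) (θ.2 1) (θ.2 2) X W

/-! ### Zero-cycles on the double cover `w² = f(x)` -/

section cycles

variable {F : Type} [Field F] {n : ℕ}

/-- The zero-cycle `[(x, w)]`. -/
noncomputable def pt (x : Fin n → F) (w : F) : ((Fin n → F) × F) →₀ ℤ := Finsupp.single (x, w) 1

/-- The zero-cycle `[(x, w)] - [(x, -w)]`. -/
noncomputable def dl (x : Fin n → F) (w : F) : ((Fin n → F) × F) →₀ ℤ := pt x w - pt x (-w)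

/-- The point `x + t e_i`. -/
def mv (x : Fin n → F) (i : Fin n) (t : F) : Fin n → F :=
  fun a => x a + t * (Pi.single i 1 : Fin n → F) a

/-- The divisors of the functions `(u + v w) / (u - v w)` on the curves in the direction of a
coordinate. -/
def Fibral (f : MvPolynomial (Fin n) F) : Set (((Fin n → F) × F) →₀ ℤ) :=
  {z | ∃ (x : Fin n → F) (i : Fin n) (u v : F[X]) (T : Multiset (F × F)),
    Zeros (rst f x (Pi.single i 1)) u v T ∧ z = (T.map fun s => dl (mv x i s.1) s.2).sum}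

/-- The differences of two points on a rational curve (the image of a line). -/
def Curves (f : MvPolynomial (Fin n) F) : Set (((Fin n → F) × F) →₀ ℤ) :=
  {z | ∃ (c : Fin n → F[X]) (b : F[X]), b ^ 2 = MvPolynomial.aeval c f ∧
    z = pt (fun k => (c k).eval 0) (b.eval 0) - pt (fun k => (c k).eval 1) (b.eval 1)}

/-- The differences of two fibres of the projection `(x, w) ↦ x`. -/
def Fibres (f : MvPolynomial (Fin n) F) : Set (((Fin n → F) × F) →₀ ℤ) :=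
  {z | ∃ (x x' : Fin n → F) (w w' : F), w ^ 2 = MvPolynomial.eval x f ∧
    w' ^ 2 = MvPolynomial.eval x' f ∧ z = pt x w + pt x (-w) - pt x' w' - pt x' (-w')}

/-- A group of zero-cycles which are rationally equivalent to zero on `w² = f(x)`. -/
noncomputable def Rat (f : MvPolynomial (Fin n) F) : AddSubgroup (((Fin n → F) × F) →₀ ℤ) :=
  AddSubgroup.closure (Fibral f ∪ Curves f ∪ Fibres f)

end cycles

/-- STEP: the class of a point obtained by a move. -/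
def S_STEP : Prop :=
  ∀ (F : Type) [Field F] [CharZero F] (n : ℕ) (f : MvPolynomial (Fin n) F),
    (∀ j, f.degreeOf j ≤ 4) → ∀ (z : Fin n → F) (w : F) (i : Fin n) (u Z : F),
      w ^ 2 = MvPolynomial.eval z f → MulPt (w, cq f z (Pi.single i 1)) u Z →
      ∃ m : ℤ, dl (mv z i u) Z - (2 * m + 1) • dl z w ∈ Rat f

/-- MAP: extension of the base field. -/
def S_MAP : Prop :=
  ∀ (F F' : Type) [Field F] [Field F'] (φ : F →+* F') (n : ℕ) (f : MvPolynomial (Fin n) F)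
    (z : ((Fin n → F) × F) →₀ ℤ), z ∈ Rat f →
      z.mapDomain (fun P => ((fun k => φ (P.1 k)), φ P.2)) ∈ Rat (MvPolynomial.map φ f)

/-- SPL: a hyperplane on which `f` is a square. -/
def S_SPL : Prop :=
  ∀ (F : Type) [Field F] [CharZero F] (n : ℕ) (f g : MvPolynomial (Fin n) F) (j : Fin n) (c : F),
    (∀ y : Fin n → F, y j = c → MvPolynomial.eval y f = MvPolynomial.eval y g ^ 2) →
    (∃ y : Fin n → F, y j = c ∧ MvPolynomial.eval y g = 0) →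
    ∀ (x : Fin n → F) (w : F), x j = c → w ^ 2 = MvPolynomial.eval x f → dl x w ∈ Rat f

end Pool.Agent.Q35.ZC
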