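import Pool.Agent.Q35.ZC.Stm
import Pool.Agent.Q35.TT.Stm3

/-!
# Lines which are tangent to the branch divisor: statements (project ZC, helper35)
-/

set_option autoImplicit false

open MvPolynomial Pool.Agent.Q35.TT Pool.Agent.Y720.MZ

namespace Pool.Agent.Q35.ZC

/-- NDT: a line which is tangent to the branch curve is not special. -/
def S_NDT : Prop :=
  ∀ (K : Type) [Field K] [CharZero K] (f : MvPolynomial (Fin 2) K), (∀ j, f.degreeOf j ≤ 4) →
    SmoothN f → ∀ i j : Fin 2, i ≠ j → ∀ z : Fin 2 → K,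
      (∃ y : Fin 2 → AlgebraicClosure K, y j = algebraMap K (AlgebraicClosure K) (z j) ∧
        aeval y f = 0 ∧ aeval y (pderiv i f) = 0) →
      ND (lc f (af z) i) (lc (pderiv j f) (af z) i) ∧ lc f (af z) i ≠ 0

/-- NOD: the points of a curve `w² = q(t)` where `q` has a multiple root. -/
def S_NOD : Prop :=
  ∀ (F : Type) [Field F] [CharZero F] [IsAlgClosed F] (n : ℕ) (f : MvPolynomial (Fin n) F)
    (x : Fin n → F) (i : Fin n), f.degreeOf i ≤ 4 →
    (∃ r : F, (rst f x (Pi.single i 1)).eval r = 0 ∧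
      (Polynomial.derivative (rst f x (Pi.single i 1))).eval r = 0) →
    ∀ w : F, w ^ 2 = eval x f → 2 • dl x w ∈ Rat f

end Pool.Agent.Q35.ZC
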